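import Pool.Agent.K4H25.PC.Kod

/-!
Logarithmic Kodaira dimension from traces, for a system of functions which separates points.
-/

set_option autoImplicit false
set_option linter.unusedSectionVars false
set_option linter.overlappingInstances false
set_option maxHeartbeats 4000000
set_option synthInstance.maxHeartbeats 400000

open FF Module Pool.Agent Pool.Agent.W602.GT Pool.Agent.W603.LV
open Pool.Agent.R882.LT (SecAt trForm_sec)
open Pool.Agent.Y184.NT (trForm trForm_pluri)
open Pool.Agent.R882.LT (TraceNe)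

namespace Pool.Agent.K4H25.LP

open Pool.Agent.K4H25.MG Pool.Agent.K4H25.PC

section

variable {K : Type} [Field K] [Algebra ℂ K] {n N q d : ℕ} {β : Fin N → Fin q} {M : Fin q → ℕ}

/-- algebraically independent ratios of the traces give the Kodaira dimension -/
theorem kod_log {L : Type} [Field L] [Algebra ℂ L] {ι : Type} {T : ι → L} {y : Fin n → L}
    {E : Fin n → Derivation ℂ L L} {BL : Place ℂ L → Prop}
    (hE : ∀ i j, E i (y j) = if i = j then 1 else 0)
    (hθr : ∀ f (P : Place ℂ L), Divisorial n P → SecAt BL P (trForm y (T f)))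
    {s : Fin (d + 1) → ι} (hs0 : T (s 0) ≠ 0)
    (hs : AlgebraicIndependent ℂ (fun i : Fin d => T (s i.succ) / T (s 0))) :
    KodGe ℂ L n BL d := by
  classical
  have hθE : ∀ t, trForm y t E = t := by
    intro t
    have h1 : (Matrix.of fun i j => E i (y j) : Matrix (Fin n) (Fin n) L) = 1 := by
      ext i j
      rw [Matrix.of_apply, hE, Matrix.one_apply]
    rw [trForm, h1, Matrix.det_one, one_mul]
  refine ⟨1, one_pos, fun j => trForm y (T (s j)), fun l =>
    ⟨trForm_pluri y _, fun P hP => (hθr _ P hP).1, fun P hP => (hθr _ P hP).2⟩, E, ?_, ?_⟩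
  · change trForm y (T (s 0)) E ≠ 0
    rw [hθE]
    exact hs0
  · simp only [hθE]
    exact hs

/-- **The core.** -/
theorem core_log [Algebra.EssFiniteType ℂ K] (htr : Algebra.trdeg ℂ K = n) {t : Fin N → K}
    (hd : Algebra.trdeg ℂ (IntermediateField.adjoin ℂ (Set.range t)) = (d : ℕ))
    {L : Type} [Field L] [Algebra ℂ L] [Algebra L K] [IsScalarTower ℂ L K]
    [FiniteDimensional L K] {BK : Place ℂ K → Prop} {BL : Place ℂ L → Prop}
    (hB : ∀ (P : Place ℂ L) (Q : Place ℂ K) (e : ℕ), Over Q P e → BK Q → BL P)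
    {ω : (Fin n → Derivation ℂ K K) → K} (hω : IsPluri 1 ω)
    {ι : Type} {G : ι → IntermediateField.adjoin L (Set.range t)}
    (hreg : ∀ a (P : Place ℂ K), Divisorial n P → SecAt BK P (fun D => (G a : K) * ω D))
    {x' : Fin N → IntermediateField.adjoin L (Set.range t)} (hx' : ∀ j, (x' j : K) = t j)
    (hG : SepSys β M x' G)
    (htn : TraceNe ω ((IntermediateField.adjoin L (Set.range t)).restrictScalars ℂ))
    (hm : ∀ Λ : Finset (Fin q), Λ.Nonempty → fdeg L β t Λ ≤ ∑ b ∈ Λ, M b + 1) :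
    (∃ η : (Fin n → Derivation ℂ L L) → L, LogSec ℂ L n 1 BL η ∧ ∃ D, η D ≠ 0) ∧
    ∀ r : ℕ, r ≤ d →
      (∀ Λ : Finset (Fin q), Λ.Nonempty →
        Algebra.trdeg ℂ (IntermediateField.adjoin ℂ (t '' {j | β j ∉ Λ})) < (r : ℕ) →
        2 * fdeg L β t Λ ≤ ∑ b ∈ Λ, M b + 1) →
      KodGe ℂ L n BL r := by
  classical
  have hessL : Algebra.EssFiniteType ℂ L := Pool.Agent.TH466.QG.ess_below (K := K)
  have hL : Algebra.trdeg ℂ L = n := Pool.Agent.Y184.NT.trdeg_below (K := K) htr
  have hcL : CharZero L := charZero_of_injective_algebraMap (algebraMap ℂ L).injective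
  obtain ⟨x, y, E, E', -, -, hadj, -, hy, hE, hE', hne⟩ := core_red' htr hω htn
  rw [hadj] at hne
  obtain ⟨W, hWdef⟩ : ∃ W : ι → (Fin n → Derivation ℂ K K) → K,
    W = fun a D => (G a : K) * ω D := ⟨_, rfl⟩
  have hWp : ∀ a, IsPluri 1 (W a) := by
    intro a A D
    rw [hWdef]
    change (G a : K) * ω (fun i => ∑ j, A i j • D j) = _
    rw [hω A D]
    ring
  have hWr : ∀ (a : ι) (P : Place ℂ K), Divisorial n P → SecAt BK P (W a) := by
    intro a P hP
    rw [hWdef]
    exact hreg a P hP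
  obtain ⟨T, hTdef⟩ : ∃ T : ι → L, ∀ a, T a = Algebra.trace L K (W a E') :=
    ⟨_, fun _ => rfl⟩
  have hT : ∀ a, T a = Algebra.trace L (IntermediateField.adjoin L (Set.range t))
      (G a * Algebra.trace (IntermediateField.adjoin L (Set.range t)) K (ω E')) := by
    intro a
    have h2 : W a E' = G a • ω E' := by
      rw [hWdef, Algebra.smul_def]
      rfl
    rw [hTdef, h2, ← Algebra.trace_trace (S := IntermediateField.adjoin L (Set.range t)),
      map_smul, smul_eq_mul]
  have hθr : ∀ (a : ι) (P : Place ℂ L), Divisorial n P → SecAt BL P (trForm y (T a)) := by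
    intro a P hP
    rw [hTdef]
    exact trForm_sec hL hy hE hE' (W a) (hWp a) hB (hWr a) P hP
  have hθE : ∀ c, trForm y c E = c := by
    intro c
    have h1 : (Matrix.of fun i j => E i (y j) : Matrix (Fin n) (Fin n) L) = 1 := by
      ext i j
      rw [Matrix.of_apply, hE, Matrix.one_apply]
    rw [trForm, h1, Matrix.det_one, one_mul]
  have hgen : IntermediateField.adjoin L (Set.range x') = ⊤ :=
    Pool.Agent.R882.WR.gen_self x' hx'
  have hd' : Algebra.trdeg ℂ (IntermediateField.adjoin ℂ (Set.range x')) = (d : ℕ) := by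
    have h1 := trdeg_map hx' Set.univ
    rw [Set.image_univ, Set.image_univ] at h1
    rw [h1]
    exact hd
  have hm' : ∀ Λ : Finset (Fin q), Λ.Nonempty →
      finrank (IntermediateField.adjoin L (x' '' {j | β j ∉ Λ}))
        (IntermediateField.adjoin L (Set.range t)) ≤ ∑ b ∈ Λ, M b + 1 := by
    intro Λ hΛ
    rw [fdeg_eq hx']
    exact hm Λ hΛ
  refine ⟨?_, fun r hr hk => ?_⟩
  · obtain ⟨a, hTa⟩ := exists_ne_sys hG hgen hm' hne hT
    refine ⟨trForm y (T a), ⟨trForm_pluri y _, fun P hP => (hθr a P hP).1,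
      fun P hP => (hθr a P hP).2⟩, E, ?_⟩
    rw [hθE]
    exact hTa
  · obtain ⟨s, hs0, hs⟩ := ratios_sys hG hL hgen hd' hm' hr (fun Λ hΛ hΛr => by
      rw [trdeg_map hx'] at hΛr
      rw [fdeg_eq hx']
      exact hk Λ hΛ hΛr) hne hT
    exact kod_log (T := T) (s := s) hE (fun a P hP => hθr a P hP) hs0 hs

end

end Pool.Agent.K4H25.LP
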