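import Pool.Agent.K4H25.LP.Span

/-!
The logarithmic canonical forms on a product of open curves generate the logarithmic differentials of
the fibres.
-/

set_option autoImplicit false
set_option linter.overlappingInstances false
set_option linter.unusedSectionVars false
set_option maxHeartbeats 4000000
set_option synthInstance.maxHeartbeats 400000

open Polynomial FF IntermediateField Pool.Agent.W603.LV Pool.Agent.W619.PQ Pool.Agent.W619.TW
open Pool.Agent.W602.GT (Divisorial RegAt IsPluri)

namespace Pool.Agent.K4H25.LP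

open Pool.Agent.K4H25.PC

section

variable {K : Type} [Field K] [Algebra ℂ K] {n : ℕ} {C : Fin (n + 1) → IntermediateField ℂ K}
  [hF : ∀ p, IsFF ℂ (C p)]

/-- **Products of open curves: the logarithmic differentials of the fibres.** -/
theorem span_prodL (hsup : ⨆ i, C i = ⊤) (hn : Algebra.trdeg ℂ K = (n + 1 : ℕ))
    {x : ∀ p, C p} (hx : ∀ p, Transcendental ℂ (x p)) {D0 : Derivation ℂ (C 0) (C 0)}
    (hD0 : D0 (x 0) = 1) (Ts : ∀ p, Finset (Place ℂ (C p))) {m : ℕ} {s : Fin m → C 0}
    (hs : ∀ f : C 0, f ≠ 0 → LR (Ts 0) D0 f → ∃ c : Fin m → ℂ, f = ∑ a, c a • s a) :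
    SpanFibL (MM C 0) (PBd Ts) (fun (j : Fin m) (D : Fin (n + 1) → Derivation ℂ K K) =>
      (s j : K) * (Matrix.of fun i l => D i (x l : K)).det) := by
  classical
  intro Λ F _ _ _ _ _ _ _ φ hFF hgen hBΛ htr t ξ htB hbasis E hE D hD f hf0 hf hf'
  have hcur := cur_MM C hsup hn 0
  have hcΛ : CharZero Λ := charZero_of_injective_algebraMap (algebraMap ℂ Λ).injective
  have hDne : D ≠ 0 := by
    rintro rfl
    simp at hD
  have hlast : ∀ j : Fin n, E (Fin.last n) (t j) = 0 := by
    intro j
    have h1 := hE (Fin.last n) (Fin.castAdd 1 j)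
    rw [Fin.append_left] at h1
    rw [h1, if_neg]
    intro h2
    have h3 := congrArg Fin.val h2
    simp at h3
    have := j.2
    omega
  have hlastξ : E (Fin.last n) ξ = 1 := by
    have h1 := hE (Fin.last n) (Fin.natAdd n 0)
    rw [Fin.append_right] at h1
    rw [h1, if_pos]
    ext
    simp
  -- the coordinates of the base
  obtain ⟨tB, htBdef⟩ : ∃ tB : Fin n → MM C 0, ∀ j, (tB j : K) = t j :=
    ⟨fun j => ⟨t j, htB j⟩, fun _ => rfl⟩
  have hindt : AlgebraicIndependent ℂ t := by
    have h1 := hbasis.1.comp (Fin.castAdd 1) (Fin.castAdd_injective n 1)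
    convert h1 using 1
    funext j
    rw [Function.comp_apply, Fin.append_left]
  have hindB : AlgebraicIndependent ℂ tB := by
    apply AlgebraicIndependent.of_comp (MM C 0).val
    convert hindt using 1
    funext j
    exact htBdef j
  have htB2 : IsTranscendenceBasis ℂ tB := by
    refine hindB.isTranscendenceBasis_of_lift_trdeg_le_of_finite ?_
    rw [trdeg_MM hsup hn]
    simp
  have hkill : ∀ z ∈ MM C 0, E (Fin.last n) z = 0 := by
    intro z hz
    have h1 := der_zero ((E (Fin.last n)).compAlgebraMap (MM C 0)) tB htB2 (fun j => by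
      change E (Fin.last n) (tB j : K) = 0
      rw [htBdef]
      exact hlast j) ⟨z, hz⟩
    exact h1
  -- the other vector fields preserve the base
  obtain ⟨T, hT⟩ : ∃ T : IntermediateField ℂ K, T = IntermediateField.adjoin ℂ (Set.range t) :=
    ⟨_, rfl⟩
  have hTst : ∀ i, ∀ z ∈ T, z ∈ MM C 0 ∧ E i z ∈ MM C 0 := by
    intro i z hz
    have h1 : T ≤ stab (E i) (MM C 0) := by
      rw [hT, IntermediateField.adjoin_le_iff]
      rintro _ ⟨j, rfl⟩
      refine ⟨htB j, ?_⟩
      have h1 := hE i (Fin.castAdd 1 j)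
      rw [Fin.append_left] at h1
      rw [h1]
      split_ifs
      · exact one_mem _
      · exact zero_mem _
    exact h1 hz
  have halgT : ∀ z ∈ MM C 0, IsAlgebraic T z := by
    intro z hz
    have h1 := htB2.isAlgebraic.isAlgebraic (⟨z, hz⟩ : MM C 0)
    have h2 : ∀ y ∈ Algebra.adjoin ℂ (Set.range tB), (y : K) ∈ T := by
      intro y hy
      induction hy using Algebra.adjoin_induction with
      | mem a ha =>
        obtain ⟨j, rfl⟩ := ha
        rw [htBdef, hT]
        exact IntermediateField.subset_adjoin _ _ ⟨j, rfl⟩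
      | algebraMap r => exact T.algebraMap_mem r
      | add a b _ _ ha hb => exact add_mem ha hb
      | mul a b _ _ ha hb => exact mul_mem ha hb
    let ρ : Algebra.adjoin ℂ (Set.range tB) →+* T :=
      { toFun := fun y => ⟨((y : MM C 0) : K), h2 y y.2⟩
        map_one' := rfl
        map_mul' := fun _ _ => rfl
        map_zero' := rfl
        map_add' := fun _ _ => rfl }
    refine h1.ringHom_of_comp_eq ρ ((MM C 0).val : MM C 0 →+* K) ?_ ?_
    · intro a b hab
      have h3 : ((a : MM C 0) : K) = ((b : MM C 0) : K) := congrArg (fun y : T => (y : K)) hab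
      exact Subtype.ext (Subtype.ext h3)
    · ext y
      rfl
  have hpres : ∀ i, ∀ z ∈ MM C 0, E i z ∈ MM C 0 := fun i z hz =>
    der_mem (E i) (hTst i) hz (halgT z hz)
  -- the determinant
  have hxB : ∀ l : Fin n, (x l.succ : K) ∈ MM C 0 := fun l =>
    le_MM C (Fin.succ_ne_zero l) (x l.succ).2
  obtain ⟨b, hbB, hb⟩ : ∃ b ∈ MM C 0, (Matrix.of fun i l => E i (x l : K)).det =
      b * E (Fin.last n) (x 0) := by
    have h1 := Matrix.det_succ_row (Matrix.of fun i l => E i (x l : K)) (Fin.last n)
    rw [Fin.sum_univ_succ, Finset.sum_eq_zero, add_zero] at h1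
    · refine ⟨(-1) ^ ((Fin.last n : ℕ) + ((0 : Fin (n + 1)) : ℕ)) *
        ((Matrix.of fun i l => E i (x l : K)).submatrix (Fin.last n).succAbove
          (Fin.succAbove 0)).det, ?_, ?_⟩
      · refine mul_mem (pow_mem (neg_mem (one_mem _)) _) ?_
        have h2 : ∀ (i l : Fin n), (Matrix.of fun i l => E i (x l : K)).submatrix
            (Fin.last n).succAbove (Fin.succAbove 0) i l ∈ MM C 0 := by
          intro i l
          rw [Matrix.submatrix_apply, Matrix.of_apply, Fin.succAbove_zero]
          exact hpres _ _ (hxB l)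
        have h3 : ((Matrix.of fun i l => E i (x l : K)).submatrix
            (Fin.last n).succAbove (Fin.succAbove 0)) =
            (Matrix.of fun i l => (⟨_, h2 i l⟩ : MM C 0)).map ((MM C 0).val : MM C 0 →+* K) := by
          ext i l
          rfl
        rw [h3, ← RingHom.mapMatrix_apply, ← RingHom.map_det]
        exact (Matrix.of fun i l => (⟨_, h2 i l⟩ : MM C 0)).det.2
      · rw [h1, Matrix.of_apply]
        ring
    · intro l _
      rw [Matrix.of_apply, hkill _ (hxB l), mul_zero, zero_mul]
  have hbne : (Matrix.of fun i l => E i (x l : K)).det ≠ 0 := by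
    have hxb := basis_of_iSup C hsup hn x hx
    choose G hG using fun j => exists_dual (fun p => (x p : K)) hxb j
    have h1 := Pool.Agent.Y172.pluri_coord hbasis hE (pluri_det fun p => (x p : K)) G
    have h2 : (Matrix.of fun i j => G i (x j : K)).det = 1 := by
      have h3 : (Matrix.of fun i j => G i (x j : K) : Matrix (Fin (n + 1)) (Fin (n + 1)) K) = 1 := by
        ext i j
        rw [Matrix.of_apply, hG i j, Matrix.one_apply]
        by_cases hij : i = j
        · rw [if_pos hij.symm, if_pos hij]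
        · rw [if_neg (fun h => hij h.symm), if_neg hij]
      rw [h3, Matrix.det_one]
    intro h3
    change (Matrix.of fun i j => G i (x j : K)).det = _ * (Matrix.of fun i l => E i (x l : K)).det at h1
    rw [h2, h3, mul_zero] at h1
    exact one_ne_zero h1
  -- the derivation of the fibre
  let _ : Algebra K F := φ.toRingHom.toAlgebra
  have hTKF : IsScalarTower ℂ K F := IsScalarTower.of_algebraMap_eq fun c => (φ.commutes c).symm
  have hDφ : ∀ z : K, D (φ z) = φ (E (Fin.last n) z) := by
    intro z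
    refine der_comp (E (Fin.last n)) (D.restrictScalars ℂ) _ hbasis (fun i => ?_) z
    change D (φ (Fin.append t (fun _ => ξ) i)) = φ (E (Fin.last n) (Fin.append t (fun _ => ξ) i))
    refine Fin.addCases (fun j => ?_) (fun j => ?_) i
    · rw [Fin.append_left, hlast, map_zero]
      obtain ⟨a, ha⟩ := hBΛ _ (htB j)
      rw [← ha, D.map_algebraMap]
    · rw [Fin.append_right, hlastξ, map_one]
      exact hD
  obtain ⟨a, ha⟩ := hBΛ b hbB
  have hφf : ∀ j, φ ((s j : K) * (Matrix.of fun i l => E i (x l : K)).det) =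
      a • (φ (s j) * D (φ (x 0))) := by
    intro j
    rw [hb, map_mul, map_mul, ← ha, hDφ, Algebra.smul_def]
    ring
  have ha0 : a ≠ 0 := by
    rintro rfl
    rw [map_zero] at ha
    have h1 : b = 0 := (map_eq_zero φ).1 ha.symm
    rw [h1, zero_mul] at hb
    exact hbne hb
  have h1 := fib_spanL hFF hcur φ hgen hBΛ htr hD0 (Ts 0) hs hDne hf (fun Q hQ => hf' Q (by
    rintro ⟨P, e, he, hP, p, Q', hQ', e', hO⟩
    by_cases hp : p = 0
    · subst hp
      refine hQ Q' (e * e') (Nat.mul_pos he hO.1) (fun β => ?_) hQ'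
      have h2 := hO.2 β
      have h3 := hP (β : K)
      change P.ord (β : K) = _ at h2
      rw [h3, h2]
      push_cast
      ring
    · obtain ⟨t', ht0', ht'⟩ := Q'.surj
      obtain ⟨a', ha'⟩ := hBΛ (t' : K) (le_MM C hp t'.2)
      have h2 := hO.2 t'
      have h3 := hP (t' : K)
      change P.ord (t' : K) = _ at h2
      rw [h2, ht', mul_one] at h3
      have h4 : a' ≠ 0 := by
        rintro rfl
        rw [map_zero] at ha'
        have h5 : (t' : K) = 0 := (map_eq_zero φ).1 ha'.symm
        exact ht0' (Subtype.ext h5)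
      rw [← ha', Q.ord_const h4] at h3
      have h5 : (0 : ℤ) < e := by exact_mod_cast he
      have h6 : (0 : ℤ) < e' := by exact_mod_cast hO.1
      have h7 := mul_pos h5 h6
      omega))
  refine (Submodule.span_le.2 ?_) h1
  rintro _ ⟨j, rfl⟩
  have h2 : φ (s j) * D (φ (x 0)) =
      a⁻¹ • φ ((s j : K) * (Matrix.of fun i l => E i (x l : K)).det) := by
    rw [hφf, smul_smul, inv_mul_cancel₀ ha0, one_smul]
  change φ (s j) * D (φ (x 0)) ∈ _
  rw [h2]
  exact Submodule.smul_mem _ _ (Submodule.subset_span ⟨j, rfl⟩)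

/-- Multiplication by a function on the base. -/
theorem span_smulL {B : IntermediateField ℂ K} {BK : Place ℂ K → Prop} {J : Type}
    {ω : J → (Fin (n + 1) → Derivation ℂ K K) → K} (h : SpanFibL B BK ω) {c : K} (hc : c ∈ B)
    (hc0 : c ≠ 0) : SpanFibL B BK (fun j D => c * ω j D) := by
  intro Λ F _ _ _ _ _ _ _ φ hFF hgen hBΛ htr t ξ htB hbasis E hE D hD f hf0 hf hf'
  obtain ⟨a, ha⟩ := hBΛ c hc
  have hφc : φ c ≠ 0 := (_root_.map_ne_zero φ).2 hc0
  have ha0 : a ≠ 0 := by
    rintro rfl
    rw [map_zero] at ha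
    exact hφc ha.symm
  have h1 := h Λ F φ hFF hgen hBΛ htr t ξ htB hbasis E hE D hD f hf0 hf hf'
  refine Submodule.span_le.2 ?_ h1
  rintro _ ⟨j, rfl⟩
  have h2 : φ (ω j E) = a⁻¹ • φ (c * ω j E) := by
    rw [map_mul, ← ha, ← Algebra.smul_def, smul_smul, inv_mul_cancel₀ ha0, one_smul]
  change φ (ω j E) ∈ _
  rw [h2]
  exact Submodule.smul_mem _ _ (Submodule.subset_span ⟨j, rfl⟩)

end

end Pool.Agent.K4H25.LP
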