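import Pool.Agent.K4H25.LP.Main
import Pool.Agent.K4H25.LP.SpanP
import Pool.Agent.K4H25.PC.Full

/-!
Images of products of open curves.
-/

set_option autoImplicit false
set_option linter.overlappingInstances false
set_option linter.unusedSectionVars false
set_option maxHeartbeats 4000000
set_option synthInstance.maxHeartbeats 400000

open FF Module Pool.Agent Pool.Agent.W602.GT Pool.Agent.R885
open Pool.Agent.W603.LV (vo vo_eq Ge)
open Pool.Agent.R882.LT (TraceNe SecAt LogGenusZero a1_not_psef a1_down')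
open Pool.Agent.W619.PL (IsA1Uniruled)
open Pool.Agent.W619.TW (MM le_MM cur_MM)

namespace Pool.Agent.K4H25.LP

open Pool.Agent.K4H25.MG Pool.Agent.K4H25.PC

/-- **`A¹`-uniruled varieties:** the log canonical divisor is not pseudo-effective. -/
theorem a1u_not_psef {L : Type} [Field L] [Algebra ℂ L] [Algebra.EssFiniteType ℂ L] {n : ℕ}
    (hL : Algebra.trdeg ℂ L = n) {Bd : Place ℂ L → Prop} (h : IsA1Uniruled ℂ L n Bd) :
    ¬ Psef ℂ L n Bd := by
  classical
  obtain ⟨M, iF, iA, φ, hess, htrM, hA⟩ := h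
  let _ : Algebra L (RatFunc M) := φ.toRingHom.toAlgebra
  have t1 : IsScalarTower ℂ L (RatFunc M) := IsScalarTower.of_algebraMap_eq fun c => by
    change _ = φ (algebraMap ℂ L c)
    rw [φ.commutes]
  have hXM : Transcendental M (RatFunc.X : RatFunc M) := RatFunc.transcendental_X
  have htopM : IntermediateField.adjoin M {(RatFunc.X : RatFunc M)} = ⊤ := RatFunc.adjoin_X
  have hessXM : Algebra.EssFiniteType M (RatFunc M) := by
    have h1 : (⊤ : IntermediateField M (RatFunc M)).FG := by
      rw [← htopM]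
      exact ⟨{RatFunc.X}, by simp⟩
    have h2 : Algebra.EssFiniteType M (⊤ : IntermediateField M (RatFunc M)) :=
      (IntermediateField.essFiniteType_iff).2 h1
    exact (Algebra.EssFiniteType.iff_of_algEquiv (IntermediateField.topEquiv
      (F := M) (E := RatFunc M))).1 h2
  have hessR : Algebra.EssFiniteType ℂ (RatFunc M) := Algebra.EssFiniteType.comp ℂ M (RatFunc M)
  have htrX : IsTranscendenceBasis M (fun _ : Unit => (RatFunc.X : RatFunc M)) := by
    have h1 : AlgebraicIndependent M (fun _ : Unit => (RatFunc.X : RatFunc M)) :=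
      (algebraicIndependent_unique_type_iff).2 hXM
    rw [h1.isTranscendenceBasis_iff_isAlgebraic]
    have h2 : Set.range (fun _ : Unit => (RatFunc.X : RatFunc M)) = {RatFunc.X} := by simp
    rw [h2]
    have h3 : Algebra.IsAlgebraic (IntermediateField.adjoin M {(RatFunc.X : RatFunc M)})
        (RatFunc M) := by
      rw [htopM]
      exact ⟨fun z => isAlgebraic_algebraMap
        (⟨z, trivial⟩ : (⊤ : IntermediateField M (RatFunc M)))⟩
    exact alg_adjoin h3
  have hR : Algebra.trdeg ℂ (RatFunc M) = n := by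
    have h1 := _root_.trdeg_add_eq ℂ M (A := RatFunc M)
    have h2 : Algebra.trdeg M (RatFunc M) = 1 := by
      rw [← htrX.cardinalMk_eq_trdeg]
      simp
    rw [← h1, h2]
    exact htrM
  -- finiteness
  have halg : Algebra.IsAlgebraic L (RatFunc M) := by
    have h1 := _root_.trdeg_add_eq ℂ L (A := RatFunc M)
    rw [hL, hR] at h1
    have h2 : Algebra.trdeg L (RatFunc M) < Cardinal.aleph0 := by
      refine lt_of_le_of_lt (le_add_self (b := (n : Cardinal))) ?_
      rw [h1]
      exact Cardinal.natCast_lt_aleph0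
    obtain ⟨d, hd⟩ := Cardinal.lt_aleph0.1 h2
    rw [hd] at h1
    have h3 : n + d = n := by exact_mod_cast h1
    have h4 : d = 0 := by omega
    rw [h4] at hd
    exact trdeg_eq_zero_iff.1 (by simpa using hd)
  have hfd : FiniteDimensional L (RatFunc M) := by
    have h1 : Algebra.EssFiniteType L (RatFunc M) := Algebra.EssFiniteType.of_comp ℂ L (RatFunc M)
    obtain ⟨s, hs⟩ := IntermediateField.fg_top L (RatFunc M)
    have h2 : FiniteDimensional L (IntermediateField.adjoin L (s : Set (RatFunc M))) :=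
      IntermediateField.finiteDimensional_adjoin fun x _ => (halg.isAlgebraic x).isIntegral
    rw [hs] at h2
    exact h2.equiv IntermediateField.topEquiv.toLinearEquiv
  -- the derivation
  have hcM : CharZero M := charZero_of_injective_algebraMap (algebraMap ℂ M).injective
  obtain ⟨d0, hd0⟩ := Pool.Agent.W602.GT.exists_der (L := M)
    (fun _ : Unit => (RatFunc.X : RatFunc M)) htrX (fun _ => RatFunc.X)
  let δ : Derivation ℂ (RatFunc M) (RatFunc M) := d0.restrictScalars ℂ
  have hδX : δ RatFunc.X = RatFunc.X := hd0 ()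
  have hδM : ∀ c : M, δ (algebraMap M (RatFunc M) c) = 0 := fun c => d0.map_algebraMap c
  obtain ⟨M0, hM0⟩ : ∃ M0 : IntermediateField ℂ (RatFunc M),
    M0 = (IsScalarTower.toAlgHom ℂ M (RatFunc M)).fieldRange := ⟨_, rfl⟩
  have hM0mem : ∀ c : M, algebraMap M (RatFunc M) c ∈ M0 := fun c => by
    rw [hM0]
    exact ⟨c, rfl⟩
  have hM0FG : M0.FG := by
    rw [← IntermediateField.essFiniteType_iff, hM0]
    exact (Algebra.EssFiniteType.iff_of_algEquiv
      (AlgEquiv.ofInjectiveField (IsScalarTower.toAlgHom ℂ M (RatFunc M)))).1 hess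
  have hM0c : M0 ≤ consts δ := by
    rw [hM0]
    rintro _ ⟨c, rfl⟩
    exact hδM c
  have hM0X : IntermediateField.adjoin M0 {(RatFunc.X : RatFunc M)} = ⊤ := by
    let A : IntermediateField M (RatFunc M) :=
      { (IntermediateField.adjoin M0 {(RatFunc.X : RatFunc M)}).toSubfield with
        algebraMap_mem' := fun c =>
          (IntermediateField.adjoin M0 {(RatFunc.X : RatFunc M)}).algebraMap_mem
            ⟨_, hM0mem c⟩ }
    have h1 : (⊤ : IntermediateField M (RatFunc M)) ≤ A := by
      rw [← htopM, IntermediateField.adjoin_simple_le_iff]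
      exact IntermediateField.mem_adjoin_simple_self M0 _
    rw [eq_top_iff]
    intro z _
    exact h1 (x := z) trivial
  refine a1_not_psef (E := RatFunc M) hR hL
    (BE := fun Q => ∃ (P : Place ℂ L) (e : ℕ), Over Q P e ∧ Bd P)
    (fun P Q e h hP => ⟨P, e, h, hP⟩) ⟨δ, RatFunc.X, M0, RatFunc.X_ne_zero, hδX, hM0FG, hM0c,
      hM0X, fun P hP hPX => ?_⟩
  rintro ⟨v, e, hO, hBv⟩
  let w : Place M (RatFunc M) :=
    { ord := P.ord
      ord_zero := P.ord_zero
      ord_mul := P.ord_mul
      ord_add := P.ord_add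
      ord_const := fun {c} hc => hP _ (hδM c) (by simpa using hc)
      surj := P.surj }
  exact hA w (Or.inr hPX) v e hO.1 hO.2 hBv

/-- the equivalences follow if logarithmic genus zero implies `A¹`-uniruledness -/
theorem tfae_ofL {n : ℕ} {L : Type} [Field L] [Algebra ℂ L] [Algebra.EssFiniteType ℂ L]
    (hL : Algebra.trdeg ℂ L = n) {BL : Place ℂ L → Prop}
    (hg : LogGenusZero L n BL → IsA1Uniruled ℂ L n BL) :
    [LogGenusZero L n BL, ¬ KodGe ℂ L n BL 0, ¬ Psef ℂ L n BL, IsA1Uniruled ℂ L n BL].TFAE := by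
  tfae_have 1 → 4 := hg
  tfae_have 4 → 3 := a1u_not_psef hL
  tfae_have 3 → 2 := fun h h' => h (psef_of_kodGe h')
  tfae_have 2 → 1 := by
    intro h ω hω D
    by_contra hne
    exact h ⟨1, one_pos, fun _ => ω, fun _ => hω, D, hne, algebraicIndependent_empty_type⟩
  tfae_finish

section

variable {K : Type} [Field K] [Algebra ℂ K] {n : ℕ}

/-- If all traces vanish then the image is `A¹`-uniruled. -/
theorem uniruled_ofL [Algebra.EssFiniteType ℂ K] {N : ℕ} {t : Fin N → K} {J : Type} [Finite J]
    {ω : J → (Fin (n + 1) → Derivation ℂ K K) → K} (hK : Algebra.trdeg ℂ K = (n + 1 : ℕ))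
    (hd : Algebra.trdeg ℂ (IntermediateField.adjoin ℂ (Set.range t)) = (n : ℕ))
    (hcl : ∀ g : K, IsAlgebraic (IntermediateField.adjoin ℂ (Set.range t)) g →
      g ∈ IntermediateField.adjoin ℂ (Set.range t)) {BK : Place ℂ K → Prop}
    (hspan : SpanFibL (IntermediateField.adjoin ℂ (Set.range t)) BK ω)
    (L : Type) [Field L] [Algebra ℂ L] [Algebra L K] [IsScalarTower ℂ L K]
    [FiniteDimensional L K] {BL : Place ℂ L → Prop}
    (hB : ∀ (P : Place ℂ L) (Q : Place ℂ K) (e : ℕ), Over Q P e → BL P → BK Q)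
    (h : ∀ p, ¬ TraceNe (ω p) ((IntermediateField.adjoin L (Set.range t)).restrictScalars ℂ)) :
    IsA1Uniruled ℂ L (n + 1) BL := by
  classical
  have hle : IntermediateField.adjoin ℂ (Set.range t) ≤
      (IntermediateField.adjoin L (Set.range t)).restrictScalars ℂ := by
    rw [IntermediateField.adjoin_le_iff]
    exact IntermediateField.subset_adjoin L _
  obtain ⟨E', hE'⟩ : ∃ E' : IntermediateField (IntermediateField.adjoin ℂ (Set.range t)) K,
      E' = IntermediateField.extendScalars hle := ⟨_, rfl⟩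
  have hE'r : E'.restrictScalars ℂ =
      (IntermediateField.adjoin L (Set.range t)).restrictScalars ℂ := by
    rw [hE']
    exact IntermediateField.extendScalars_restrictScalars hle
  have hfinE : FiniteDimensional E' K := by
    have h1 : FiniteDimensional (IntermediateField.adjoin L (Set.range t)) K := inferInstance
    rw [hE']
    exact h1
  have h1 : ∀ (EE : IntermediateField ℂ K) (_ : EE = E'.restrictScalars ℂ)
      (BE : Place ℂ EE → Prop) (_ : ∀ (P : Place ℂ EE) (Q : Place ℂ K) (e : ℕ),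
        Over Q P e → BE P → BK Q), IsA1Uniruled ℂ EE (n + 1) BE := by
    rintro _ rfl BE hBE
    exact dichL hK _ hd hcl E' ω hBE hspan (fun p => by rw [hE'r]; exact h p)
  obtain ⟨EE, hEE⟩ : ∃ EE : IntermediateField ℂ K,
    EE = (IntermediateField.adjoin L (Set.range t)).restrictScalars ℂ := ⟨_, rfl⟩
  have hmem : ∀ g : L, algebraMap L K g ∈ EE := by
    intro g
    rw [hEE]
    exact (IntermediateField.adjoin L (Set.range t)).algebraMap_mem g
  let φ : L →ₐ[ℂ] EE :=
    { toFun := fun g => ⟨algebraMap L K g, hmem g⟩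
      map_one' := Subtype.ext (map_one _)
      map_mul' := fun a b => Subtype.ext (map_mul _ _ _)
      map_zero' := Subtype.ext (map_zero _)
      map_add' := fun a b => Subtype.ext (map_add _ _ _)
      commutes' := fun c => Subtype.ext (IsScalarTower.algebraMap_apply ℂ L K c).symm }
  let _ : Algebra L EE := φ.toRingHom.toAlgebra
  have t1 : IsScalarTower ℂ L EE := IsScalarTower.of_algebraMap_eq fun c => (φ.commutes c).symm
  have t2 : IsScalarTower L EE K := IsScalarTower.of_algebraMap_eq fun c => rfl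
  have hfd : FiniteDimensional L EE :=
    FiniteDimensional.of_injective (IsScalarTower.toAlgHom L EE K).toLinearMap
      Subtype.val_injective
  have hessE : Algebra.EssFiniteType ℂ EE := by
    have h2 : FiniteDimensional EE K := by
      rw [hEE]
      exact inferInstanceAs (FiniteDimensional (IntermediateField.adjoin L (Set.range t)) K)
    exact Pool.Agent.TH466.QG.ess_below (K := K)
  have hessL : Algebra.EssFiniteType ℂ L := Pool.Agent.TH466.QG.ess_below (K := K)
  refine a1_down' (E := EE) (BE := fun Q => ∃ (P : Place ℂ L) (e : ℕ), Over Q P e ∧ BL P)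
    (fun P Q e h hP => ⟨P, e, h, hP⟩) (h1 EE (by rw [hEE, hE'r]) _ ?_)
  rintro P Q e hQ ⟨P', e', hP', hBP'⟩
  exact hB P' Q _ (Pool.Agent.R882.LT.over_trans hP' hQ) hBP'

variable {C : Fin (n + 1) → IntermediateField ℂ K} [∀ p, IsFF ℂ (C p)]

/-- **Images of products of open curves.** -/
theorem main_prod_log (hsup : ⨆ p, C p = ⊤) (hn : Algebra.trdeg ℂ K = (n + 1 : ℕ))
    {M : Fin n → ℕ} (T : ∀ p, Finset (Place ℂ (C p)))
    (hgon : ∀ (p : Fin n) (b : C p.succ), Transcendental ℂ b → (∀ P ∈ T p.succ, 0 < P.ord b) →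
      M p + 1 < finrank (IntermediateField.adjoin ℂ {b}) (C p.succ))
    (L : Type) [Field L] [Algebra ℂ L] [Algebra L K] [IsScalarTower ℂ L K]
    [FiniteDimensional L K] {BL : Place ℂ L → Prop}
    (hB : ∀ (P : Place ℂ L) (Q : Place ℂ K) (e : ℕ), Over Q P e → (BL P ↔ PBd T Q))
    (hm : ∀ Λ : Finset (Fin n), Λ.Nonempty →
      cdeg L (fun p : Fin n => C p.succ) Λ ≤ ∑ b ∈ Λ, M b + 1) :
    [LogGenusZero L (n + 1) BL, ¬ KodGe ℂ L (n + 1) BL 0,
      ¬ Psef ℂ L (n + 1) BL, IsA1Uniruled ℂ L (n + 1) BL].TFAE ∧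
    ∀ r : ℕ, r ≤ n →
      (∀ Λ : Finset (Fin n), n < r + Λ.card →
        2 * cdeg L (fun p : Fin n => C p.succ) Λ ≤ ∑ b ∈ Λ, M b + 1) →
      IsA1Uniruled ℂ L (n + 1) BL ∨ KodGe ℂ L (n + 1) BL r := by
  classical
  have hess : Algebra.EssFiniteType ℂ K := by
    obtain ⟨N, β, t, -, hgens⟩ := exists_gens (C := C)
    have h1 := hgens ∅ ℂ
    have h2 : t '' {j | β j ∉ (∅ : Finset (Fin (n + 1)))} = Set.range t := by
      rw [← Set.image_univ]
      congr 1
      ext j
      simp
    have h3 : IntermediateField.adjoin ℂ (Set.range t) = ⊤ := by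
      rw [← h2, h1, eq_top_iff, ← hsup]
      refine iSup_le fun p z hz => ?_
      exact IntermediateField.subset_adjoin ℂ _ ⟨p, by simp, hz⟩
    rw [← IntermediateField.fg_top_iff, ← h3]
    exact ⟨Finset.univ.image t, by rw [Finset.coe_image, Finset.coe_univ, Set.image_univ]⟩
  have hess' : Algebra.EssFiniteType ℂ L := Pool.Agent.TH466.QG.ess_below (K := K)
  have hL : Algebra.trdeg ℂ L = (n + 1 : ℕ) := Pool.Agent.Y184.NT.trdeg_below (K := K) hn
  obtain ⟨x, D0, hx, hD0, hD00⟩ := exists_dual_fields (C := C)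
  choose m s hs1 hs2 using fun p => exists_log_fam (F := C p) (T p) (hD00 p)
  obtain ⟨ω, hω⟩ : ∃ ω : Fin (m 0) → (Fin (n + 1) → Derivation ℂ K K) → K,
    ω = fun j D => (s 0 j : K) * (Matrix.of fun i l => D i (x l : K)).det := ⟨_, rfl⟩
  have hpl : ∀ j, IsPluri 1 (ω j) := by
    intro j A D
    have h1 := pluri_det (fun p => (x p : K)) A D
    rw [hω]
    change (s 0 j : K) * (Matrix.of fun i l => (∑ l, A i l • D l) (x l : K)).det = A.det ^ 1 * _
    change (Matrix.of fun i l => (∑ l, A i l • D l) (x l : K)).det = _ at h1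
    rw [h1]
    change (s 0 j : K) * (A.det ^ 1 * _) = A.det ^ 1 * ((s 0 j : K) * _)
    ring
  have hreg : ∀ j, ∀ g : ∀ p : Fin n, C p.succ,
      (∀ p, LR (T p.succ) (D0 p.succ) (g p)) →
      ∀ P : Place ℂ K, SecAt (PBd T) P (fun D => (∏ p, (g p : K)) * ω j D) := by
    intro j g hg P
    have h1 := sec_prod (E := C) (x := x) hD0 (T := T)
      (g := Fin.cons (α := fun p => C p) (s 0 j) g)
      (fun p => by
        refine Fin.cases ?_ (fun p => ?_) p
        · rw [Fin.cons_zero]
          exact hs1 0 j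
        · rw [Fin.cons_succ]
          exact hg p) P
    have h2 : (fun D : Fin (n + 1) → Derivation ℂ K K => (∏ p, (g p : K)) * ω j D) =
        fun D => (∏ p, ((Fin.cons (α := fun p => C p) (s 0 j) g : ∀ p, C p) p : K)) *
          (Matrix.of fun i j => D i (x j : K)).det := by
      funext D
      rw [Fin.prod_univ_succ, Fin.cons_zero, hω]
      simp only [Fin.cons_succ]
      ring
    rw [h2]
    exact h1
  have hspan : SpanFibL (MM C 0) (PBd T) ω := by
    rw [hω]
    exact span_prodL hsup hn hx (hD0 0) T (hs2 0)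
  -- generators of the base
  obtain ⟨N, β, t, -, hgens⟩ := exists_gens (C := fun p : Fin n => C p.succ)
  have hempty : ∀ (L : Type) [Field L] [Algebra ℂ L] [Algebra L K] [IsScalarTower ℂ L K],
      IntermediateField.adjoin L (Set.range t) =
        IntermediateField.adjoin L {z | ∃ p : Fin n, z ∈ C p.succ} := by
    intro L _ _ _ _
    have h1 := hgens ∅ L
    have h2 : t '' {j | β j ∉ (∅ : Finset (Fin n))} = Set.range t := by
      rw [← Set.image_univ]
      congr 1
      ext j
      simp
    have h3 : {z : K | ∃ p, p ∉ (∅ : Finset (Fin n)) ∧ z ∈ C p.succ} =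
        {z | ∃ p : Fin n, z ∈ C p.succ} := by
      ext z
      simp
    rw [h2, h3] at h1
    exact h1
  have hBt : IntermediateField.adjoin ℂ (Set.range t) = MM C 0 := by
    rw [hempty ℂ, adjoin_eq_MM]
  have hd : Algebra.trdeg ℂ (IntermediateField.adjoin ℂ (Set.range t)) = (n : ℕ) := by
    rw [hBt]
    exact trdeg_MM hsup hn
  have hcl : ∀ g : K, IsAlgebraic (IntermediateField.adjoin ℂ (Set.range t)) g →
      g ∈ IntermediateField.adjoin ℂ (Set.range t) := by
    rw [hBt]
    intro g hg
    exact cur_closed (cur_MM C hsup hn 0) hg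
  have huni : (∀ j, ¬ TraceNe (ω j) ((IntermediateField.adjoin L
      {z | ∃ p : Fin n, z ∈ C p.succ}).restrictScalars ℂ)) → IsA1Uniruled ℂ L (n + 1) BL := by
    intro htr
    refine uniruled_ofL (ω := ω) hn hd hcl (BK := PBd T) ?_ L (fun P Q e h => (hB P Q e h).1)
      fun j h => htr j ?_
    · rw [hBt]
      exact hspan
    · rw [← hempty L]
      exact h
  have hcore : ∀ j, TraceNe (ω j) ((IntermediateField.adjoin L
      {z | ∃ p : Fin n, z ∈ C p.succ}).restrictScalars ℂ) → _ := fun j htn =>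
    main_gen_log (C := fun p : Fin n => C p.succ) hn
      (by rw [adjoin_eq_MM]; exact trdeg_MM hsup hn)
      (T := fun p => T p.succ) hgon (fun p => hD00 p.succ) (hpl j)
      (fun g hg P _ => hreg j g hg P) L (BL := BL) (fun P Q e h => (hB P Q e h).2) htn hm
  refine ⟨tfae_ofL hL fun hg => huni fun j htr => ?_, fun r hr hk => ?_⟩
  · obtain ⟨η, hη, D, hD⟩ := (hcore j htr).1
    exact hD (hg η hη D)
  · by_cases htr : ∃ j, TraceNe (ω j) ((IntermediateField.adjoin L
      {z | ∃ p : Fin n, z ∈ C p.succ}).restrictScalars ℂ)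
    · obtain ⟨j, htr⟩ := htr
      exact Or.inr ((hcore j htr).2 r hr hk)
    · push Not at htr
      exact Or.inl (huni htr)

end

end Pool.Agent.K4H25.LP
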