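import Pool.Agent.K4H25.LP.Ext
import Pool.Agent.R882.GLb
import Pool.Agent.TH466.QG.Equiv
import Pool.Agent.W619.PL.LDefs

/-!
Fibrations whose geometric generic fibre is the affine line.
-/

set_option autoImplicit false
set_option linter.overlappingInstances false
set_option linter.unusedSectionVars false
set_option maxHeartbeats 4000000
set_option synthInstance.maxHeartbeats 400000

open IntermediateField Module FF Pool.Agent.W619.PQ Pool.Agent.W603.LV
open Pool.Agent.W619.PL (IsA1Uniruled)
open Pool.Agent.TH466.QG (pullPl)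

namespace Pool.Agent.K4H25.LP

/-- **Geometric generic fibres contained in the affine line.** -/
theorem a1_geo {n m : ℕ} {E Λ F : Type} [Field E] [Field Λ] [Field F] [Algebra ℂ E]
    [Algebra ℂ Λ] [Algebra ℂ F] [Algebra Λ F] [IsScalarTower ℂ Λ F] [Algebra.EssFiniteType ℂ E]
    [IsFF Λ F]
    (hE : Algebra.trdeg ℂ E = n) (hΛ : Algebra.trdeg ℂ Λ = m) (hmn : n = m + 1) (ψ : E →ₐ[ℂ] F)
    (s : F) (htop : IntermediateField.adjoin Λ {s} = ⊤) {BE : Place ℂ E → Prop}
    (hBE : ∀ (W : Place Λ F) (v : Place ℂ E) (e : ℕ), 0 < e →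
      (∀ z : E, W.ord (ψ z) = e * v.ord z) → W.Reg s → ¬ BE v) :
    IsA1Uniruled ℂ E n BE := by
  classical
  have hs : Transcendental Λ s := by
    intro h
    have h1 : Algebra.IsAlgebraic Λ (IntermediateField.adjoin Λ {s}) :=
      IntermediateField.isAlgebraic_adjoin_simple h.isIntegral
    rw [htop] at h1
    have h2 : Algebra.IsAlgebraic Λ F := (IntermediateField.topEquiv (F := Λ) (E := F)).isAlgebraic
    have h3 := (inferInstance : IsFF Λ F).trdeg
    have h4 : Algebra.trdeg Λ F = 0 := trdeg_eq_zero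
    rw [h4] at h3
    exact zero_ne_one h3
  obtain ⟨S, hS⟩ := IntermediateField.fg_top ℂ E
  have h1 : ∀ e : E, ∃ p q : Polynomial Λ,
      ψ e = Polynomial.aeval s p / Polynomial.aeval s q := fun e =>
    IntermediateField.mem_adjoin_simple_iff Λ (ψ e) |>.1 (by rw [htop]; trivial)
  choose p q hpq using h1
  let T : Set Λ := ⋃ e ∈ S, (((p e).coeffs : Set Λ) ∪ ((q e).coeffs : Set Λ))
  have hTfin : T.Finite := by
    refine Set.Finite.biUnion S.finite_toSet fun e _ => ?_
    exact (Finset.finite_toSet _).union (Finset.finite_toSet _)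
  let M : IntermediateField ℂ Λ := IntermediateField.adjoin ℂ T
  have hess : Algebra.EssFiniteType ℂ M :=
    IntermediateField.essFiniteType_iff.2 (IntermediateField.fg_adjoin_of_finite hTfin)
  have hcoef : ∀ e ∈ S, ∀ i, (p e).coeff i ∈ M ∧ (q e).coeff i ∈ M := by
    intro e he i
    have h2 : ∀ f : Polynomial Λ, (f.coeffs : Set Λ) ⊆ T → f.coeff i ∈ M := by
      intro f hf
      by_cases h0 : f.coeff i = 0
      · rw [h0]
        exact zero_mem _
      · refine IntermediateField.subset_adjoin _ _ (hf ?_)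
        exact Polynomial.coeff_mem_coeffs h0
    exact ⟨h2 _ (Set.subset_biUnion_of_mem (u := fun e => (((p e).coeffs : Set Λ) ∪
        ((q e).coeffs : Set Λ))) he |>.trans' Set.subset_union_left),
      h2 _ (Set.subset_biUnion_of_mem (u := fun e => (((p e).coeffs : Set Λ) ∪
        ((q e).coeffs : Set Λ))) he |>.trans' Set.subset_union_right)⟩
  have hT1 : IsScalarTower ℂ M F := IsScalarTower.of_algebraMap_eq fun c => by
    rw [IsScalarTower.algebraMap_apply ℂ Λ F]
    rfl
  let R : IntermediateField M F := IntermediateField.adjoin M {s}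
  have hRpoly : ∀ f : Polynomial Λ, (∀ i, f.coeff i ∈ M) → Polynomial.aeval s f ∈ R := by
    intro f hf
    rw [Polynomial.aeval_eq_sum_range]
    refine sum_mem fun i _ => ?_
    rw [Algebra.smul_def]
    refine mul_mem ?_ (pow_mem (IntermediateField.mem_adjoin_simple_self M s) i)
    exact R.algebraMap_mem ⟨f.coeff i, hf i⟩
  have hmem : ∀ e, ψ e ∈ R.restrictScalars ℂ := by
    have h2 : (⊤ : IntermediateField ℂ E) ≤ (R.restrictScalars ℂ).comap ψ := by
      rw [← hS, IntermediateField.adjoin_le_iff]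
      intro e he
      change ψ e ∈ R
      rw [hpq e]
      exact div_mem (hRpoly _ fun i => (hcoef e he i).1) (hRpoly _ fun i => (hcoef e he i).2)
    exact fun e => h2 trivial
  have hsM : Transcendental M s := by
    intro h2
    exact hs (IsAlgebraic.tower_top Λ h2)
  let e1 : RatFunc M ≃ₐ[M] R := RatFunc.algEquivOfTranscendental s hsM
  have he1X : ((e1 RatFunc.X : R) : F) = s := RatFunc.algEquivOfTranscendental_X s hsM
  let ψ' : E →ₐ[ℂ] R :=
    { toFun := fun e => ⟨ψ e, hmem e⟩
      map_one' := Subtype.ext (map_one _)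
      map_mul' := fun a b => Subtype.ext (map_mul _ _ _)
      map_zero' := Subtype.ext (map_zero _)
      map_add' := fun a b => Subtype.ext (map_add _ _ _)
      commutes' := fun c => Subtype.ext (by
        change ψ (algebraMap ℂ E c) = _
        rw [ψ.commutes]
        rfl) }
  let φ : E →ₐ[ℂ] RatFunc M := (e1.symm.restrictScalars ℂ : R →ₐ[ℂ] RatFunc M).comp ψ'
  -- the transcendence degree of `M`
  have hMle : Algebra.trdeg ℂ M ≤ (m : ℕ) := by
    rw [← hΛ]
    exact trdeg_le_of_injective M.val (Subtype.val_injective)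
  obtain ⟨m', hm'⟩ : ∃ m' : ℕ, Algebra.trdeg ℂ M = m' :=
    Cardinal.lt_aleph0.1 (hMle.trans_lt Cardinal.natCast_lt_aleph0)
  have h3 : Algebra.trdeg ℂ (RatFunc M) = (m' + 1 : ℕ) := Pool.Agent.R885.trdeg_ratFunc hm'
  have h4 : Algebra.trdeg ℂ E ≤ Algebra.trdeg ℂ (RatFunc M) :=
    trdeg_le_of_injective φ φ.toRingHom.injective
  rw [hE, h3] at h4
  rw [hm'] at hMle
  have h5 : n ≤ m' + 1 := by exact_mod_cast h4
  have h6 : m' ≤ m := by exact_mod_cast hMle
  have h7 : m' + 1 = n := by omega
  have h8 : m' = m := by omega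
  have halg : Algebra.IsAlgebraic M Λ := by
    have h9 := trdeg_add_eq ℂ M (A := Λ)
    rw [hm', hΛ, h8] at h9
    have h10 : Algebra.trdeg M Λ < Cardinal.aleph0 := by
      refine lt_of_le_of_lt (le_add_self (b := ((m : ℕ) : Cardinal))) ?_
      rw [h9]
      exact Cardinal.natCast_lt_aleph0
    obtain ⟨d, hd⟩ := Cardinal.lt_aleph0.1 h10
    rw [hd] at h9
    have h11 : m + d = m := by exact_mod_cast h9
    have h12 : d = 0 := by omega
    rw [h12] at hd
    exact trdeg_eq_zero_iff.1 (by simpa using hd)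
  refine ⟨M, inferInstance, inferInstance, φ, hess, ?_, fun w hX v e he hv => ?_⟩
  · rw [hm', ← h7]
    push_cast
    rfl
  · have hcM : CharZero M := charZero_of_injective_algebraMap (algebraMap ℂ M).injective
    have hcΛ : CharZero Λ := charZero_of_injective_algebraMap (algebraMap ℂ Λ).injective
    obtain ⟨W, e2, he2, hW⟩ := ext_const (Λ := Λ) (F := F) (pullPl e1.symm w)
    refine hBE W v (e2 * e) (Nat.mul_pos he2 he) (fun z => ?_) ?_
    · have h9 := hW (ψ' z)
      have h10 : (pullPl e1.symm w).ord (ψ' z) = w.ord (φ z) := rfl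
      rw [h10, hv z] at h9
      have h11 : algebraMap R F (ψ' z) = ψ z := rfl
      rw [h11] at h9
      rw [h9]
      push_cast
      ring
    · have h9 := hW (e1 RatFunc.X)
      have h10 : (pullPl e1.symm w).ord (e1 RatFunc.X) = w.ord (e1.symm (e1 RatFunc.X)) := rfl
      rw [h10, AlgEquiv.symm_apply_apply] at h9
      have h11 : algebraMap R F (e1 RatFunc.X) = s := he1X
      rw [h11] at h9
      right
      rw [h9]
      have h12 : 0 ≤ w.ord (RatFunc.X : RatFunc M) := hX.resolve_left RatFunc.X_ne_zero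
      positivity

end Pool.Agent.K4H25.LP
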