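import Pool.Agent.K4H25.LP.Line
import Pool.Agent.K4H25.LP.Geo
import Pool.Agent.R882.GLd
import Pool.Agent.R882.LOver

/-!
The logarithmic dichotomy for the images of fibrations by open curves.
-/

set_option autoImplicit false
set_option linter.overlappingInstances false
set_option linter.unusedSectionVars false
set_option maxHeartbeats 4000000
set_option synthInstance.maxHeartbeats 400000

open IntermediateField Module FF Pool.Agent.W619.PQ Pool.Agent.W603.LV
open Pool.Agent.W602.GT (Divisorial RegAt IsPluri)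
open Pool.Agent.W619.PL (IsA1Uniruled)
open Pool.Agent.R882.GL (trace_fib)
open Pool.Agent.R882.LT (TraceNe)

namespace Pool.Agent.K4H25.LP

section

variable {B K Λ F : Type} [Field B] [Field K] [Field Λ] [Field F] [Algebra B K] [Algebra B Λ]
  [Algebra Λ F] [Algebra K F] [Algebra B F] [IsScalarTower B Λ F] [IsScalarTower B K F]
  [CharZero B] [Algebra.IsAlgebraic B Λ] [IsAlgClosed Λ]

/-- **The dichotomy on the geometric generic fibre.** -/
theorem dich_fibL (hF : IsFF Λ F)
    (hcl : ∀ x : K, IsIntegral B x → ∃ y : B, algebraMap B K y = x)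
    (hgenF : IntermediateField.adjoin Λ (Set.range (algebraMap K F)) = ⊤)
    (E : IntermediateField B K) [FiniteDimensional E K] (FE : IntermediateField Λ F)
    (hFE : FE = IntermediateField.adjoin Λ (algebraMap K F '' E)) {ξ : K} (hξE : ξ ∈ E)
    (hξ : Transcendental Λ (algebraMap K F ξ)) {D : Derivation Λ F F}
    (hD : D (algebraMap K F ξ) = 1) {J : Type} [Finite J] (g : J → K)
    (TF : Place Λ F → Prop) (TE : Place Λ FE → Prop)
    (hT : ∀ (Q : Place Λ F) (q : Place Λ FE) (e : ℕ), Over Q q e → TE q → TF Q)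
    (hspan : ∀ f : F, f ≠ 0 → (∀ Q : Place Λ F, vo Q D ≤ Q.ord f + 1) →
      (∀ Q : Place Λ F, ¬ TF Q → vo Q D ≤ Q.ord f) →
      f ∈ Submodule.span Λ (Set.range fun j => algebraMap K F (g j)))
    (htr : ∀ j, Algebra.trace E K (g j) = 0) :
    IsFF Λ FE ∧ ∃ s : FE, IntermediateField.adjoin Λ {s} = ⊤ ∧
      ∀ q : Place Λ FE, q.Reg s → ¬ TE q := by
  classical
  have hΛ0 : CharZero Λ := charZero_of_injective_algebraMap (algebraMap B Λ).injective
  obtain ⟨hfin, htrace⟩ := trace_fib (F := F) hcl hgenF E FE hFE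
  have hess : Algebra.EssFiniteType Λ F := hF.ess
  have hessE : Algebra.EssFiniteType Λ FE := Pool.Agent.TH466.QG.ess_below (K := F)
  have htrE : Algebra.trdeg Λ FE = 1 := by
    have h1 := trdeg_add_eq Λ FE (A := F)
    have h2 : Algebra.trdeg FE F = 0 := trdeg_eq_zero
    rw [h2, add_zero, hF.trdeg] at h1
    exact h1
  have hFFE : IsFF Λ FE := ⟨hessE, htrE⟩
  refine ⟨hFFE, ?_⟩
  have hξF : algebraMap K F ξ ∈ FE := by
    rw [hFE]
    exact IntermediateField.subset_adjoin _ _ ⟨ξ, hξE, rfl⟩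
  have hξ' : Transcendental Λ (⟨algebraMap K F ξ, hξF⟩ : FE) := by
    intro h
    apply hξ
    exact (isAlgebraic_algebraMap_iff (algebraMap FE F).injective).2 h
  have hd0 := der_ne (k := Λ) (K := FE)
  have hd1 := der_ne_zero hd0 hξ'
  obtain ⟨DE, hDE⟩ : ∃ DE : Derivation Λ FE FE,
      DE = (der Λ FE ⟨algebraMap K F ξ, hξF⟩)⁻¹ • der Λ FE := ⟨_, rfl⟩
  have hDE1 : DE ⟨algebraMap K F ξ, hξF⟩ = 1 := by
    rw [hDE, Derivation.smul_apply, smul_eq_mul, inv_mul_cancel₀ hd1]
  have hDE0 : DE ≠ 0 := by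
    intro h
    rw [h] at hDE1
    exact zero_ne_one hDE1
  have hD0 : D ≠ 0 := by
    intro h
    rw [h] at hD
    exact zero_ne_one hD
  obtain ⟨D2, hD2, hext2⟩ := exists_ext (E := F) DE hDE0
  have hDD : ∀ z : F, D2 z = D z := by
    refine der_ext hξ ?_
    have h1 := hext2 ⟨algebraMap K F ξ, hξF⟩
    rw [hDE1, map_one] at h1
    rw [hD]
    exact h1
  have hext : ∀ z : FE, D (algebraMap FE F z) = algebraMap FE F (DE z) := fun z => by
    rw [← hDD, hext2]
  rcases log_or_line hDE0 TE with ⟨f, hf0, hf1, hf2⟩ | h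
  · exfalso
    have hf0' : algebraMap FE F f ≠ 0 := (_root_.map_ne_zero _).2 hf0
    have hmem := hspan _ hf0' (fun Q => by
      obtain ⟨q, e, hq⟩ := Pool.Agent.Y172.exists_below (K := FE) Q
      have h1 := vo_over hq hDE0 hD0 hext
      have h2 := hf1 q
      have h3 : Q.ord (algebraMap FE F f) = e * q.ord f := hq.2 f
      rw [h1, h3]
      have h5 := mul_le_mul_of_nonneg_left h2 (Int.natCast_nonneg e)
      linarith) (fun Q hQ => by
      obtain ⟨q, e, hq⟩ := Pool.Agent.Y172.exists_below (K := FE) Q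
      have h1 := vo_over hq hDE0 hD0 hext
      have h2 := hf2 q fun h => hQ (hT Q q e hq h)
      have h3 : Q.ord (algebraMap FE F f) = e * q.ord f := hq.2 f
      have h4 : (1 : ℤ) ≤ e := by exact_mod_cast hq.1
      rw [h1, h3]
      have h5 := mul_le_mul_of_nonneg_left h2 (Int.natCast_nonneg e)
      linarith)
    have hsub : Submodule.span Λ (Set.range fun j => algebraMap K F (g j)) ≤
        LinearMap.ker ((Algebra.trace FE F).restrictScalars Λ) := by
      rw [Submodule.span_le]
      rintro _ ⟨j, rfl⟩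
      change Algebra.trace FE F (algebraMap K F (g j)) = 0
      apply Subtype.ext
      rw [htrace, htr j]
      simp
    have h1 : Algebra.trace FE F (algebraMap FE F f) = 0 := hsub hmem
    rw [Algebra.trace_algebraMap, nsmul_eq_mul] at h1
    rcases mul_eq_zero.1 h1 with h2 | h2
    · have h3 : 0 < Module.finrank FE F := Module.finrank_pos
      have h4 : (Module.finrank FE F : FE) ≠ 0 := by exact_mod_cast h3.ne'
      exact h4 h2
    · exact hf0 h2
  · exact h

end

section

variable {K : Type} [Field K] [Algebra ℂ K] {n : ℕ}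

/-- The place `Q` of the geometric generic fibre lies over a place in the boundary. -/
def FB {Λ F : Type} [Field Λ] [Field F] [Algebra Λ F] (φ : K → F) (BK : Place ℂ K → Prop)
    (Q : Place Λ F) : Prop :=
  ∃ (P : Place ℂ K) (e : ℕ), 0 < e ∧ (∀ z : K, Q.ord (φ z) = e * P.ord z) ∧ BK P

/-- The restrictions of the forms `ω j` generate the logarithmic differentials of the geometric
generic fibre `F` over `Λ`. -/
def SpanFibL {J : Type} (B : IntermediateField ℂ K) (BK : Place ℂ K → Prop)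
    (ω : J → (Fin (n + 1) → Derivation ℂ K K) → K) : Prop :=
  ∀ (Λ F : Type) [Field Λ] [IsAlgClosed Λ] [Algebra ℂ Λ] [Field F] [Algebra Λ F]
    [Algebra ℂ F] [IsScalarTower ℂ Λ F] (φ : K →ₐ[ℂ] F), IsFF Λ F →
    IntermediateField.adjoin Λ (Set.range φ) = ⊤ →
    (∀ z ∈ B, ∃ a : Λ, algebraMap Λ F a = φ z) →
    (∀ z : K, ¬ IsAlgebraic B z → Transcendental Λ (φ z)) →
    ∀ (t : Fin n → K) (ξ : K), (∀ j, t j ∈ B) →
      IsTranscendenceBasis ℂ (Fin.append t (fun _ : Fin 1 => ξ)) →
    ∀ E : Fin (n + 1) → Derivation ℂ K K,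
      (∀ i j, E i (Fin.append t (fun _ : Fin 1 => ξ) j) = if i = j then 1 else 0) →
    ∀ D : Derivation Λ F F, D (φ ξ) = 1 →
    ∀ f : F, f ≠ 0 → (∀ Q : Place Λ F, vo Q D ≤ Q.ord f + 1) →
      (∀ Q : Place Λ F, ¬ FB φ BK Q → vo Q D ≤ Q.ord f) →
      f ∈ Submodule.span Λ (Set.range fun j => φ (ω j E))

section

variable {B Λ F : Type} [Field B] [Field Λ] [Field F] [Algebra ℂ B] [Algebra B K]
  [IsScalarTower ℂ B K] [Algebra B Λ] [Algebra Λ F] [Algebra K F] [Algebra B F]
  [IsScalarTower B Λ F] [IsScalarTower B K F] [Algebra ℂ Λ] [Algebra ℂ F] [IsScalarTower ℂ Λ F]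
  [IsScalarTower ℂ K F] [IsScalarTower ℂ B Λ] [Algebra.IsAlgebraic B Λ] [IsAlgClosed Λ]

/-- **The dichotomy, abstract form.** -/
theorem dich_absL [hess : Algebra.EssFiniteType ℂ K] (hK : Algebra.trdeg ℂ K = (n + 1 : ℕ))
    (hB : Algebra.trdeg ℂ B = n)
    (hcl : ∀ x : K, IsIntegral B x → ∃ y : B, algebraMap B K y = x)
    (hgenF : IntermediateField.adjoin Λ (Set.range (algebraMap K F)) = ⊤)
    (E' : IntermediateField B K) [FiniteDimensional E' K] {J : Type} [Finite J]
    (ω : J → (Fin (n + 1) → Derivation ℂ K K) → K) {BK : Place ℂ K → Prop}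
    {BE : Place ℂ (E'.restrictScalars ℂ : IntermediateField ℂ K) → Prop}
    (hBE : ∀ (P : Place ℂ (E'.restrictScalars ℂ : IntermediateField ℂ K)) (Q : Place ℂ K) (e : ℕ),
      Over Q P e → BE P → BK Q)
    (hspan : ∀ (t : Fin n → K) (ξ : K), (∀ j, t j ∈ Set.range (algebraMap B K)) →
      IsTranscendenceBasis ℂ (Fin.append t (fun _ : Fin 1 => ξ)) →
      ∀ E : Fin (n + 1) → Derivation ℂ K K,
      (∀ i j, E i (Fin.append t (fun _ : Fin 1 => ξ) j) = if i = j then 1 else 0) →
      ∀ D : Derivation Λ F F, D (algebraMap K F ξ) = 1 →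
      ∀ f : F, f ≠ 0 → (∀ Q : Place Λ F, vo Q D ≤ Q.ord f + 1) →
        (∀ Q : Place Λ F, ¬ FB (algebraMap K F) BK Q → vo Q D ≤ Q.ord f) →
        f ∈ Submodule.span Λ (Set.range fun j => algebraMap K F (ω j E)))
    (htr : ∀ j, ¬ TraceNe (ω j) (E'.restrictScalars ℂ)) :
    IsA1Uniruled ℂ (E'.restrictScalars ℂ : IntermediateField ℂ K) (n + 1) BE := by
  classical
  have hB0 : CharZero B := charZero_of_injective_algebraMap (algebraMap ℂ B).injective
  have hΛ0 : CharZero Λ := charZero_of_injective_algebraMap (algebraMap B Λ).injective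
  -- the coordinates
  obtain ⟨tB, htB⟩ := Pool.Agent.W636.PG.exists_basis ℂ B n hB
  have hLK : Algebra.trdeg B K = (1 : ℕ) :=
    Pool.Agent.Y174.trdeg_LK (r := 1) hB hK
  obtain ⟨ξ, hξE, hξ⟩ : ∃ ξ : K, ξ ∈ E' ∧ ¬ IsAlgebraic B ξ := by
    by_contra hcon
    push Not at hcon
    have h1 : Algebra.IsAlgebraic B E' := ⟨fun z => by
      have h2 := hcon (z : K) z.2
      exact (isAlgebraic_algebraMap_iff (R := B) (algebraMap E' K).injective).1 h2⟩
    have h2 : Algebra.IsAlgebraic B K := Algebra.IsAlgebraic.trans B E' K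
    have h3 : Algebra.trdeg B K = 0 := trdeg_eq_zero
    rw [h3] at hLK
    have h4 : (0 : ℕ) = 1 := by exact_mod_cast hLK
    exact zero_ne_one h4
  have hxB : IsTranscendenceBasis B (fun _ : Fin (0 + 1) => ξ) := by
    have h1 : AlgebraicIndependent B (fun _ : Fin (0 + 1) => ξ) := by
      have : Unique (Fin (0 + 1)) := inferInstanceAs (Unique (Fin 1))
      rw [algebraicIndependent_unique_type_iff]
      exact hξ
    refine h1.isTranscendenceBasis_of_lift_trdeg_le_of_finite ?_
    rw [hLK]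
    simp
  have hZ := Pool.Agent.Y174.basis_append htB hxB
  -- the frame, lifted from `E'`
  obtain ⟨EE, hEE⟩ : ∃ EE : IntermediateField ℂ K, EE = E'.restrictScalars ℂ := ⟨_, rfl⟩
  have hfinE : FiniteDimensional EE K := by
    rw [hEE]
    exact inferInstanceAs (FiniteDimensional E' K)
  have hEtr : Algebra.trdeg ℂ EE = (n + 1 : ℕ) :=
    Pool.Agent.Y184.NT.trdeg_below (K := K) hK
  have hmemE : ∀ i, Fin.append (algebraMap B K ∘ tB) (fun _ : Fin (0 + 1) => ξ) i ∈ EE := by
    intro i
    rw [hEE]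
    refine Fin.addCases (fun i => ?_) (fun i => ?_) i
    · rw [Fin.append_left]
      exact E'.algebraMap_mem (tB i)
    · rw [Fin.append_right]
      exact hξE
  obtain ⟨zE, hzE⟩ : ∃ zE : Fin (n + 1) → EE, ∀ i, (zE i : K) =
    Fin.append (algebraMap B K ∘ tB) (fun _ : Fin (0 + 1) => ξ) i :=
      ⟨fun i => ⟨_, hmemE i⟩, fun _ => rfl⟩
  have hzEb : IsTranscendenceBasis ℂ zE := by
    have h1 : AlgebraicIndependent ℂ zE := by
      refine AlgebraicIndependent.of_comp EE.val ?_
      have h2 : (EE.val ∘ zE) = Fin.append (algebraMap B K ∘ tB) (fun _ : Fin (0 + 1) => ξ) :=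
        funext hzE
      rw [h2]
      exact hZ.1
    refine h1.isTranscendenceBasis_of_lift_trdeg_le_of_finite ?_
    rw [hEtr]
    simp
  obtain ⟨D0, hD0⟩ := Pool.Agent.W636.PG.exists_duals ℂ EE (n + 1) zE hzEb
  choose Ef hEf using fun i => Pool.Agent.Y172.exists_lift (k := ℂ) (K := EE) (L := K) hEtr (D0 i)
  have hEd : ∀ i j, Ef i (Fin.append (algebraMap B K ∘ tB) (fun _ : Fin (0 + 1) => ξ) j) =
      if i = j then 1 else 0 := by
    intro i j
    rw [← hzE j]
    have h1 := hEf i (zE j)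
    rw [hD0] at h1
    refine h1.trans ?_
    by_cases h : i = j
    · rw [if_pos h, if_pos h, map_one]
    · rw [if_neg h, if_neg h, map_zero]
  have htr0 : ∀ j, Algebra.trace EE K (ω j Ef) = 0 := by
    intro j
    by_contra h
    refine htr j ?_
    rw [← hEE]
    exact ⟨D0, Ef, hEf, h⟩
  have htrE' : ∀ j, Algebra.trace E' K (ω j Ef) = 0 := by
    intro j
    have h1 := htr0 j
    subst hEE
    have h2 : ((Algebra.trace E' K (ω j Ef) : E') : K) = 0 := by
      have h3 := congrArg (fun z : (E'.restrictScalars ℂ : IntermediateField ℂ K) => (z : K)) h1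
      exact h3
    exact Subtype.ext h2
  -- the fibre
  have htrF : Algebra.trdeg Λ F = (1 : ℕ) :=
    Pool.Agent.Y174.trdeg_F (L := B) (K := K) hLK hgenF
  have hessF : Algebra.EssFiniteType Λ F := Pool.Agent.Y174.ess_F (k := ℂ) (K := K) hess hgenF
  have hFF : IsFF Λ F := ⟨hessF, by rw [htrF]; simp⟩
  have hξF : Transcendental Λ (algebraMap K F ξ) := by
    intro h
    apply hξ
    have h1 : IsAlgebraic B (algebraMap K F ξ) := h.restrictScalars B
    exact (isAlgebraic_algebraMap_iff (R := B) (algebraMap K F).injective).1 h1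
  have hd0 := der_ne (k := Λ) (K := F)
  have hd1 := der_ne_zero hd0 hξF
  obtain ⟨D, hDd⟩ : ∃ D : Derivation Λ F F, D = (der Λ F (algebraMap K F ξ))⁻¹ • der Λ F :=
    ⟨_, rfl⟩
  have hD1 : D (algebraMap K F ξ) = 1 := by
    rw [hDd, Derivation.smul_apply, smul_eq_mul, inv_mul_cancel₀ hd1]
  -- the field of the fibre of `E`
  obtain ⟨FE, hFE⟩ : ∃ FE : IntermediateField Λ F,
    FE = IntermediateField.adjoin Λ (algebraMap K F '' E') := ⟨_, rfl⟩
  have hmemFE : ∀ e : K, e ∈ E' → algebraMap K F e ∈ FE := by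
    intro e he
    rw [hFE]
    exact IntermediateField.subset_adjoin _ _ ⟨e, he, rfl⟩
  let ψ : (E'.restrictScalars ℂ : IntermediateField ℂ K) →ₐ[ℂ] FE :=
    { toFun := fun z => ⟨algebraMap K F z, hmemFE z z.2⟩
      map_one' := Subtype.ext (map_one _)
      map_mul' := fun a b => Subtype.ext (map_mul _ _ _)
      map_zero' := Subtype.ext (map_zero _)
      map_add' := fun a b => Subtype.ext (map_add _ _ _)
      commutes' := fun c => Subtype.ext (by
        change algebraMap K F (algebraMap ℂ K c) = algebraMap ℂ F c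
        rw [← IsScalarTower.algebraMap_apply]) }
  -- the dichotomy
  obtain ⟨hFFE, s, hs, hsB⟩ := dich_fibL (J := J) hFF hcl hgenF E' FE hFE hξE hξF hD1
    (fun j => ω j Ef) (FB (algebraMap K F) BK)
    (fun q => ∃ (v : Place ℂ (E'.restrictScalars ℂ : IntermediateField ℂ K)) (e : ℕ), 0 < e ∧
      (∀ z : (E'.restrictScalars ℂ : IntermediateField ℂ K), q.ord (ψ z) = e * v.ord z) ∧ BE v)
    (fun Q q e hQ hq => by
      obtain ⟨v, e', he', hv, hBv⟩ := hq
      obtain ⟨t, ht0, ht⟩ := v.surj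
      have hqe : (0 : ℤ) < e := by exact_mod_cast hQ.1
      have hqe' : (0 : ℤ) < e' := by exact_mod_cast he'
      have hz : ∀ z : (E'.restrictScalars ℂ : IntermediateField ℂ K),
          Q.ord (algebraMap K F (z : K)) = (e * e' : ℤ) * v.ord z := by
        intro z
        have h1 := hQ.2 (ψ z)
        rw [hv z] at h1
        have h2 : algebraMap FE F (ψ z) = algebraMap K F (z : K) := rfl
        rw [h2] at h1
        rw [h1]
        ring
      obtain ⟨P, a, ha, hP⟩ := Pool.Agent.W619.Y.exists_restrict Q (algebraMap K F)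
        (fun c hc => by
          have h1 : (algebraMap K F) (algebraMap ℂ K c) = algebraMap Λ F (algebraMap ℂ Λ c) := by
            rw [← IsScalarTower.algebraMap_apply ℂ K F, ← IsScalarTower.algebraMap_apply ℂ Λ F]
          rw [h1]
          exact Q.ord_const (by simpa using hc)) (f0 := (t : K)) (by
          rw [hz t, ht, mul_one]
          exact (mul_pos hqe hqe').ne')
      have ha' : (0 : ℤ) < a := by exact_mod_cast ha
      have h5 : (a : ℤ) * P.ord (t : K) = e * e' := by
        rw [← hP, hz t, ht, mul_one]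
      have h6 : 0 < P.ord (t : K) := by
        by_contra h
        have h7 : (a : ℤ) * P.ord (t : K) ≤ 0 :=
          mul_nonpos_of_nonneg_of_nonpos ha'.le (not_lt.1 h)
        have h8 := mul_pos hqe hqe'
        omega
      refine ⟨P, a, ha, hP, hBE v P (P.ord (t : K)).toNat ⟨by omega, fun z => ?_⟩ hBv⟩
      rw [Int.toNat_of_nonneg h6.le]
      apply mul_left_cancel₀ ha'.ne'
      change (a : ℤ) * P.ord (z : K) = _
      rw [← hP, hz z, ← mul_assoc, h5])
    (fun f hf0 hf1 hf2 => hspan (algebraMap B K ∘ tB) ξ (fun j => ⟨tB j, rfl⟩) hZ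
      Ef hEd D hD1 f hf0 hf1 hf2) htrE'
  -- uniruledness
  have hessE : Algebra.EssFiniteType ℂ (E'.restrictScalars ℂ) := by
    have h1 : FiniteDimensional (E'.restrictScalars ℂ : IntermediateField ℂ K) K :=
      inferInstanceAs (FiniteDimensional E' K)
    exact Pool.Agent.TH466.QG.ess_below (K := K)
  have hEtr' : Algebra.trdeg ℂ (E'.restrictScalars ℂ : IntermediateField ℂ K) = (n + 1 : ℕ) := by
    rw [← hEE]
    exact hEtr
  have hΛtr : Algebra.trdeg ℂ Λ = (n : ℕ) := by
    have h1 := trdeg_add_eq ℂ B (A := Λ)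
    have h2 : Algebra.trdeg B Λ = 0 := trdeg_eq_zero
    rw [h2, add_zero, hB] at h1
    exact h1.symm
  exact a1_geo (E := (E'.restrictScalars ℂ : IntermediateField ℂ K)) (Λ := Λ) (F := FE)
    hEtr' hΛtr rfl ψ s hs fun W v e he hW hreg hBv => hsB W hreg ⟨v, e, he, hW, hBv⟩

end

/-- **The dichotomy for the images of a fibration by open curves.** -/
theorem dichL [hess : Algebra.EssFiniteType ℂ K] (hK : Algebra.trdeg ℂ K = (n + 1 : ℕ))
    (B : IntermediateField ℂ K) (hB : Algebra.trdeg ℂ B = n)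
    (hcl : ∀ z : K, IsAlgebraic B z → z ∈ B) (E' : IntermediateField B K)
    [FiniteDimensional E' K] {J : Type} [Finite J]
    (ω : J → (Fin (n + 1) → Derivation ℂ K K) → K) {BK : Place ℂ K → Prop}
    {BE : Place ℂ (E'.restrictScalars ℂ : IntermediateField ℂ K) → Prop}
    (hBE : ∀ (P : Place ℂ (E'.restrictScalars ℂ : IntermediateField ℂ K)) (Q : Place ℂ K) (e : ℕ),
      Over Q P e → BE P → BK Q)
    (hspan : SpanFibL B BK ω) (htr : ∀ j, ¬ TraceNe (ω j) (E'.restrictScalars ℂ)) :
    IsA1Uniruled ℂ (E'.restrictScalars ℂ : IntermediateField ℂ K) (n + 1) BE := by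
  classical
  have hcl' : ∀ z : K, IsIntegral B z → ∃ y : B, algebraMap B K y = z := fun z hz =>
    ⟨⟨z, hcl z hz.isAlgebraic⟩, rfl⟩
  let Ω := AlgebraicClosure K
  let Λ : IntermediateField B Ω := algebraicClosure B Ω
  have hΛ : IsAlgClosed Λ := (algebraicClosure.isAlgClosure B Ω).isAlgClosed
  have hΛalg : Algebra.IsAlgebraic B Λ := inferInstance
  let F : IntermediateField Λ Ω := IntermediateField.adjoin Λ (Set.range (algebraMap K Ω))
  have hTL : IsScalarTower ℂ B Ω := IsScalarTower.of_algebraMap_eq fun z => by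
    rw [IsScalarTower.algebraMap_apply ℂ K Ω]
    rfl
  have hTΛ : IsScalarTower ℂ Λ Ω := IsScalarTower.of_algebraMap_eq fun z => by
    rw [IsScalarTower.algebraMap_apply ℂ B Ω]
    rfl
  let φ0 : K →+* F :=
    { toFun := fun z => ⟨algebraMap K Ω z, IntermediateField.subset_adjoin _ _ ⟨z, rfl⟩⟩
      map_one' := Subtype.ext (map_one _)
      map_mul' := fun a b => Subtype.ext (map_mul _ _ _)
      map_zero' := Subtype.ext (map_zero _)
      map_add' := fun a b => Subtype.ext (map_add _ _ _) }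
  let iKF : Algebra K F := φ0.toAlgebra
  have hKF : ∀ z : K, ((algebraMap K F z : F) : Ω) = algebraMap K Ω z := fun z => rfl
  have hT1 : IsScalarTower B K F := IsScalarTower.of_algebraMap_eq fun z => Subtype.ext rfl
  have hT2 : IsScalarTower ℂ K F := IsScalarTower.of_algebraMap_eq fun z => by
    apply Subtype.ext
    rw [hKF, ← IsScalarTower.algebraMap_apply ℂ K Ω]
    rfl
  have hT3 : IsScalarTower ℂ B Λ := inferInstance
  have hT4 : IsScalarTower B Λ F := IsScalarTower.of_algebraMap_eq fun z => Subtype.ext rfl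
  have hT5 : IsScalarTower ℂ Λ F := inferInstance
  have hgenF : IntermediateField.adjoin Λ (Set.range (algebraMap K F)) = ⊤ := by
    have h1 : (IntermediateField.adjoin Λ (Set.range (algebraMap K F))).map F.val =
        (⊤ : IntermediateField Λ F).map F.val := by
      rw [IntermediateField.adjoin_map, ← AlgHom.fieldRange_eq_map,
        IntermediateField.fieldRange_val]
      congr 1
      ext z
      simp only [Set.mem_image, Set.mem_range]
      constructor
      · rintro ⟨_, ⟨y, rfl⟩, rfl⟩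
        exact ⟨y, rfl⟩
      · rintro ⟨y, rfl⟩
        exact ⟨_, ⟨y, rfl⟩, rfl⟩
    exact IntermediateField.map_injective _ h1
  have hLK : Algebra.trdeg B K = (1 : ℕ) := Pool.Agent.Y174.trdeg_LK (r := 1) hB hK
  have htrF : Algebra.trdeg Λ F = (1 : ℕ) :=
    Pool.Agent.Y174.trdeg_F (L := B) (K := K) hLK hgenF
  have hessF : Algebra.EssFiniteType Λ F := Pool.Agent.Y174.ess_F (k := ℂ) (K := K) hess hgenF
  have hFF : IsFF Λ F := ⟨hessF, by rw [htrF]; simp⟩
  have htransc : ∀ z : K, ¬ IsAlgebraic B z → Transcendental Λ (algebraMap K F z) := by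
    intro z hz h
    apply hz
    have h1 : IsAlgebraic B (algebraMap K F z) := h.restrictScalars B
    exact (isAlgebraic_algebraMap_iff (R := B) (algebraMap K F).injective).1 h1
  refine dich_absL (Λ := Λ) (F := F) hK hB hcl' hgenF E' ω hBE ?_ htr
  intro t ξ ht hZ Ef hEf D hD f hf0 hf1 hf2
  exact hspan Λ F (IsScalarTower.toAlgHom ℂ K F) hFF hgenF
    (fun z hz => ⟨algebraMap B Λ ⟨z, hz⟩, Subtype.ext rfl⟩) (fun z hz => htransc z hz) t ξ
    (fun j => by
      obtain ⟨b, hb⟩ := ht j
      rw [← hb]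
      exact b.2) hZ Ef hEf D hD f hf0 hf1 hf2

end

end Pool.Agent.K4H25.LP
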