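import Pool.Agent.K4H25.PC.Plc

/-!
Places of constant field extensions.
-/

set_option autoImplicit false
set_option linter.overlappingInstances false
set_option linter.unusedSectionVars false
set_option maxHeartbeats 4000000
set_option synthInstance.maxHeartbeats 400000

open Polynomial FF IntermediateField

namespace Pool.Agent.K4H25.LP

open Pool.Agent.W603.LV Pool.Agent.K4H25.PC Pool.Agent.W619.PQ

/-- **Extension of a place to an algebraic extension of the constants.** -/
theorem ext_const {M Λ R F : Type*} [Field M] [Field Λ] [Field R] [Field F] [Algebra M Λ]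
    [Algebra M R] [Algebra Λ F] [Algebra R F] [Algebra M F] [IsScalarTower M Λ F]
    [IsScalarTower M R F] [CharZero M] [CharZero Λ] [Algebra.IsAlgebraic M Λ] [IsFF Λ F]
    (w : Place M R) : ∃ (W : Place Λ F) (e : ℕ), 0 < e ∧
      ∀ z : R, W.ord (algebraMap R F z) = e * w.ord z := by
  classical
  let iO : Algebra w.O F := ((algebraMap R F).comp w.O.subtype).toAlgebra
  have hO : ∀ a : w.O, algebraMap w.O F a = algebraMap R F (a : R) := fun a => rfl
  let A : Subalgebra w.O F := Algebra.adjoin w.O (Set.range (algebraMap Λ F))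
  have hint : ∀ c : Λ, IsIntegral w.O (algebraMap Λ F c) := by
    intro c
    have h1 : IsIntegral M c := Algebra.IsIntegral.isIntegral c
    have h2 : IsIntegral M (algebraMap Λ F c) := h1.algebraMap
    let iM : M →+* w.O := (algebraMap M R).codRestrict w.O (fun c => w.reg_const c)
    obtain ⟨p, hp, hpe⟩ := h2
    refine ⟨p.map iM, hp.map iM, ?_⟩
    rw [Polynomial.eval₂_map]
    have h3 : (algebraMap w.O F).comp iM = algebraMap M F := by
      ext c
      change algebraMap R F (algebraMap M R c) = _
      rw [← IsScalarTower.algebraMap_apply]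
    rw [h3]
    exact hpe
  have hA : Algebra.IsIntegral w.O A := by
    refine ⟨fun a => ?_⟩
    have h1 : A ≤ integralClosure w.O F := by
      refine Algebra.adjoin_le ?_
      rintro _ ⟨c, rfl⟩
      exact hint c
    have h2 : IsIntegral w.O (a : F) := h1 a.2
    exact (isIntegral_algHom_iff A.val Subtype.val_injective).1 h2
  have hinj : Function.Injective (algebraMap w.O A) := by
    intro a b h
    have h1 : algebraMap w.O F a = algebraMap w.O F b := congrArg Subtype.val h
    rw [hO, hO] at h1
    exact Subtype.ext ((algebraMap R F).injective h1)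
  have : IsLocalRing w.O := by
    have : IsDiscreteValuationRing w.O := w.isDVR
    infer_instance
  obtain ⟨Q, hQ, hQm⟩ := Ideal.exists_ideal_over_maximal_of_isIntegral (S := A)
    (IsLocalRing.maximalIdeal w.O) (by
      rw [(RingHom.injective_iff_ker_eq_bot _).1 hinj]
      exact bot_le)
  have hmem : ∀ a : w.O, a ∈ IsLocalRing.maximalIdeal w.O → algebraMap w.O A a ∈ Q := by
    intro a ha
    rw [← hQm] at ha
    exact ha
  obtain ⟨π, hπ0, hπ⟩ := w.surj
  have hπr : w.Reg π := Or.inr (by omega)
  have hπm : (⟨π, hπr⟩ : w.O) ∈ IsLocalRing.maximalIdeal w.O := by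
    rw [mem_maximalIdeal_iff]
    exact Or.inr hπ.ge
  have hπt : Transcendental M π := w.transcendental_of_ord_ne (by omega)
  have hπΛ : Transcendental Λ (algebraMap R F π) := by
    intro h
    apply hπt
    have h1 : IsAlgebraic M (algebraMap R F π) := h.restrictScalars M
    exact (isAlgebraic_algebraMap_iff (algebraMap R F).injective).1 h1
  obtain ⟨W, hW⟩ := exists_place_ideal (k := Λ) (F := F) A.toSubring
    (fun c => Algebra.subset_adjoin ⟨c, rfl⟩) Q hQ.ne_top (hmem _ hπm) hπΛ
  have hWm : ∀ z : R, Ge w 1 z → Ge W 1 (algebraMap R F z) := by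
    intro z hz
    have hzr : w.Reg z := hz.mono (by omega)
    have h1 : (⟨z, hzr⟩ : w.O) ∈ IsLocalRing.maximalIdeal w.O := by
      rw [mem_maximalIdeal_iff]
      exact hz
    exact hW _ (hmem _ h1)
  have hπF : algebraMap R F π ≠ 0 := (_root_.map_ne_zero _).2 hπ0
  have hWπ : 1 ≤ W.ord (algebraMap R F π) := (hWm π (Or.inr hπ.ge)).resolve_left hπF
  -- units
  have hunit : ∀ z : R, z ≠ 0 → w.ord z = 0 → 0 ≤ W.ord (algebraMap R F z) := by
    intro z hz0 hz
    by_contra hlt
    push Not at hlt
    have h1 := hWm (z ^ (W.ord (algebraMap R F π)).toNat * π) (Or.inr (by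
      rw [w.ord_mul (pow_ne_zero _ hz0) hπ0, w.ord_pow, hz, hπ, mul_zero, zero_add]))
    have hzF : algebraMap R F z ≠ 0 := (_root_.map_ne_zero _).2 hz0
    have h2 := h1.resolve_left ((_root_.map_ne_zero _).2 (mul_ne_zero (pow_ne_zero _ hz0) hπ0))
    rw [map_mul, map_pow, W.ord_mul (pow_ne_zero _ hzF) hπF, W.ord_pow] at h2
    have h3 : ((W.ord (algebraMap R F π)).toNat : ℤ) = W.ord (algebraMap R F π) :=
      Int.toNat_of_nonneg (by omega)
    rw [h3] at h2
    nlinarith
  have hunit' : ∀ z : R, z ≠ 0 → w.ord z = 0 → W.ord (algebraMap R F z) = 0 := by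
    intro z hz0 hz
    have h1 := hunit z hz0 hz
    have h2 := hunit z⁻¹ (inv_ne_zero hz0) (by rw [w.ord_inv, hz, neg_zero])
    rw [map_inv₀, W.ord_inv] at h2
    omega
  refine ⟨W, (W.ord (algebraMap R F π)).toNat, by omega, fun z => ?_⟩
  rw [Int.toNat_of_nonneg (by omega)]
  by_cases hz0 : z = 0
  · rw [hz0, map_zero, W.ord_zero, w.ord_zero, mul_zero]
  · have h1 : w.ord (z * π ^ (-(w.ord z))) = 0 := by
      rw [w.ord_mul hz0 (zpow_ne_zero _ hπ0), w.ord_zpow, hπ]
      ring
    have h2 := hunit' _ (mul_ne_zero hz0 (zpow_ne_zero _ hπ0)) h1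
    have hzF : algebraMap R F z ≠ 0 := (_root_.map_ne_zero _).2 hz0
    rw [map_mul, map_zpow₀, W.ord_mul hzF (zpow_ne_zero _ hπF), W.ord_zpow] at h2
    linarith

end Pool.Agent.K4H25.LP
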