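import Pool.Agent.K4H25.LP.Spec
import Pool.Agent.K4H25.LP.Kod
import Pool.Agent.K4H25.PC.Form

/-!
Products of logarithmic differentials on curves.
-/

set_option autoImplicit false
set_option linter.overlappingInstances false
set_option linter.unusedSectionVars false
set_option maxHeartbeats 4000000
set_option synthInstance.maxHeartbeats 400000

open FF Module Pool.Agent Pool.Agent.W602.GT
open Pool.Agent.W603.LV (vo vo_eq Ge)
open Pool.Agent.R882.LT (SecAt)

namespace Pool.Agent.K4H25.LP

open Pool.Agent.K4H25.PC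

section

variable {K : Type} [Field K] [Algebra ℂ K]

/-- `g dx` is regular on logarithmic vector fields if it has simple poles. -/
theorem log_entry {E : Type} [Field E] [Algebra ℂ E] [Algebra E K] [IsScalarTower ℂ E K]
    [IsFF ℂ E] {x : E} {D0 : Derivation ℂ E E} (hD0 : D0 x = 1) {T : Finset (Place ℂ E)} {g : E}
    (hg : LR T D0 g) (P : Place ℂ K) {D' : Derivation ℂ K K} (hD' : DerLog P D') :
    P.Reg (algebraMap E K g * D' (algebraMap E K x)) := by
  have hx := transcendental_of_der hD0
  have hD00 : D0 ≠ 0 := by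
    rintro rfl
    simp at hD0
  rcases hg with hg | hg
  · rw [hg, map_zero, zero_mul]
    exact P.reg_zero
  by_cases hall : ∀ f : E, P.ord (algebraMap E K f) = 0
  · have h1 : ∀ f : E, P.Reg (algebraMap E K f) := fun f => Or.inr (hall f).ge
    exact P.reg_mul (h1 g) (Pool.Agent.TH466.QG.derReg_of_log hD' _ (h1 x))
  · push Not at hall
    obtain ⟨e, Q, hQ⟩ := exists_over (K := E) P hall
    obtain ⟨π, hπ0, hπ⟩ := Q.surj
    obtain ⟨r, hr1, hr2⟩ := Pool.Agent.W619.PQ.ratio' (K := K) hx π
    have h1 := hr1 D0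
    rw [hD0, mul_one] at h1
    have h2 := hr2 D'
    have h3 : vo Q D0 = Q.ord r := by
      rw [← vo_eq Q hπ hD00, h1]
    have hr0 : r ≠ 0 := by
      rw [← h1]
      exact (Pool.Agent.W603.LV.ord_der Q hD00 (f := π) (by omega)).1
    have h4 : algebraMap E K g * D' (algebraMap E K x) =
        algebraMap E K (g * π / r) * (D' (algebraMap E K π) / algebraMap E K π) := by
      rw [h2, map_div₀, map_mul]
      have : algebraMap E K r ≠ 0 := by simpa using hr0
      have h5 : algebraMap E K π ≠ 0 := by simpa using hπ0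
      field_simp
    rw [h4]
    refine P.reg_mul ?_ (hD' _)
    by_cases hg0 : g = 0
    · rw [hg0, zero_mul, zero_div, map_zero]
      exact P.reg_zero
    · right
      rw [hQ.2, Q.ord_div (mul_ne_zero hg0 hπ0) hr0, Q.ord_mul hg0 hπ0, hπ]
      have h6 : vo Q D0 ≤ Q.ord g + 1 := by
        by_cases hQT : Q ∈ T
        · exact hg.2 Q hQT
        · have := hg.1 Q hQT
          omega
      rw [h3] at h6
      have h7 : (0 : ℤ) ≤ Q.ord g + 1 - Q.ord r := by omega
      positivity

/-- `g dx` is regular on `K` at the places which are not over `T`. -/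
theorem reg_entry' {E : Type} [Field E] [Algebra ℂ E] [Algebra E K] [IsScalarTower ℂ E K]
    [IsFF ℂ E] {x : E} {D0 : Derivation ℂ E E} (hD0 : D0 x = 1) {T : Finset (Place ℂ E)} {g : E}
    (hg : LR T D0 g) (P : Place ℂ K) (hPT : ∀ (Q : Place ℂ E) (e : ℕ), Over P Q e → Q ∉ T)
    {D' : Derivation ℂ K K} (hD' : DerReg P D') :
    P.Reg (algebraMap E K g * D' (algebraMap E K x)) := by
  have hx := transcendental_of_der hD0
  have hD00 : D0 ≠ 0 := by
    rintro rfl
    simp at hD0
  rcases hg with hg | hg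
  · rw [hg, map_zero, zero_mul]
    exact P.reg_zero
  by_cases hall : ∀ f : E, P.ord (algebraMap E K f) = 0
  · have h1 : ∀ f : E, P.Reg (algebraMap E K f) := fun f => Or.inr (hall f).ge
    exact P.reg_mul (h1 g) (hD' _ (h1 x))
  · push Not at hall
    obtain ⟨e, Q, hQ⟩ := exists_over (K := E) P hall
    obtain ⟨π, hπ0, hπ⟩ := Q.surj
    obtain ⟨r, hr1, hr2⟩ := Pool.Agent.W619.PQ.ratio' (K := K) hx π
    have h1 := hr1 D0
    rw [hD0, mul_one] at h1
    have h2 := hr2 D'
    have h3 : vo Q D0 = Q.ord r := by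
      rw [← vo_eq Q hπ hD00, h1]
    have hr0 : r ≠ 0 := by
      rw [← h1]
      exact (Pool.Agent.W603.LV.ord_der Q hD00 (f := π) (by omega)).1
    have h4 : algebraMap E K g * D' (algebraMap E K x) =
        algebraMap E K (g / r) * D' (algebraMap E K π) := by
      rw [h2, map_div₀]
      have : algebraMap E K r ≠ 0 := by simpa using hr0
      field_simp
    rw [h4]
    refine P.reg_mul ?_ (hD' _ ?_)
    · by_cases hg0 : g = 0
      · rw [hg0, zero_div, map_zero]
        exact P.reg_zero
      · right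
        rw [hQ.2, Q.ord_div hg0 hr0]
        have h5 := hg.1 Q (hPT Q e hQ)
        rw [h3] at h5
        have h6 : (0 : ℤ) ≤ Q.ord g - Q.ord r := by omega
        positivity
    · right
      rw [hQ.2, hπ]
      positivity

/-- The boundary of the product of open curves: the places over the points in `T p`. -/
def PBd {n : ℕ} {C : Fin n → IntermediateField ℂ K} (T : ∀ p, Finset (Place ℂ (C p)))
    (P : Place ℂ K) : Prop :=
  ∃ p, ∃ Q ∈ T p, ∃ e : ℕ, Over P Q e

/-- The product of logarithmic differentials is a logarithmic form. -/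
theorem sec_prod {n : ℕ} {E : Fin n → IntermediateField ℂ K} [∀ p, IsFF ℂ (E p)]
    {x : ∀ p, E p} {D0 : ∀ p, Derivation ℂ (E p) (E p)} (hD0 : ∀ p, D0 p (x p) = 1)
    {T : ∀ p, Finset (Place ℂ (E p))} {g : ∀ p, E p} (hg : ∀ p, LR (T p) (D0 p) (g p))
    (P : Place ℂ K) :
    SecAt (PBd T) P (fun D : Fin n → Derivation ℂ K K => (∏ p, (g p : K)) *
      (Matrix.of fun i j => D i (x j : K)).det) := by
  classical
  have key : ∀ D : Fin n → Derivation ℂ K K, (∀ i j, P.Reg ((g j : K) * D i (x j : K))) →
      P.Reg ((∏ p, (g p : K)) * (Matrix.of fun i j => D i (x j : K)).det) := by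
    intro D h2
    have h1 : (∏ p, (g p : K)) * (Matrix.of fun i j => D i (x j : K)).det =
        (Matrix.of fun i j => (g j : K) * D i (x j : K)).det := by
      rw [← Matrix.det_mul_row]
      rfl
    rw [h1]
    have h3 : (Matrix.of fun i j => (g j : K) * D i (x j : K)).det =
        P.O.subtype (Matrix.of fun i j => (⟨_, h2 i j⟩ : P.O)).det := by
      rw [RingHom.map_det]
      rfl
    rw [h3]
    exact (Matrix.of fun i j => (⟨_, h2 i j⟩ : P.O)).det.2
  refine ⟨fun D hD => key D fun i j => ?_, fun hP D hD => key D fun i j => ?_⟩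
  · exact log_entry (E := E j) (hD0 j) (hg j) P (hD i)
  · exact reg_entry' (E := E j) (hD0 j) (hg j) P (fun Q e hQ hQT => hP ⟨j, Q, hQT, e, hQ⟩) (hD i)

end

end Pool.Agent.K4H25.LP
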