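import Pool.Agent.W619.PQ.Reg

/-!
The multiplier attached to a linear functional that vanishes on the functions which are regular outside
of the poles of `x`, and on the functions of large order at the poles of `x`.
-/

set_option autoImplicit false
set_option linter.overlappingInstances false
set_option linter.unusedSectionVars false
set_option maxHeartbeats 4000000
set_option synthInstance.maxHeartbeats 400000

open Polynomial FF IsDedekindDomain IntermediateField

namespace Pool.Agent.K4H25.LP

open Pool.Agent.W603.LV Pool.Agent.W619.PQ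

section

variable {k F : Type*} [Field k] [Field F] [Algebra k F]

/-- functions whose order at the poles `P` of `x` is at least `τ P` -/
def BT (x : F) (τ : Place k F → ℤ) : Submodule k F where
  carrier := {y | ∀ P : Place k F, P.ord x < 0 → Ge P (τ P) y}
  add_mem' := fun ha hb P hP => (ha P hP).add (hb P hP)
  zero_mem' := fun P _ => Ge.zero
  smul_mem' := by
    intro c y hy P hP
    rw [Algebra.smul_def]
    simpa using (Ge.const (P := P) c).mul (hy P hP)

variable {x : F} (lam : F →ₗ[k] k)

theorem bdd' [CharZero k] [IsFF k F] {τ : Place k F → ℤ} {A : ℤ} (hA : ∀ P, τ P ≤ A)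
    (hT : ∀ y ∈ BT x τ, lam y = 0) (y : F) :
    BddBelow (Function.support fun j : ℤ => lam (x ^ (j - 1) * y)) := by
  classical
  have hfin := finite_support (k := k) y
  refine ⟨-((∑ P ∈ hfin.toFinset, (P.ord y).natAbs : ℕ) : ℤ) + 1 - A.natAbs, ?_⟩
  intro j hj
  by_contra hcon
  push Not at hcon
  apply hj
  apply hT
  intro P hP
  by_cases hy : y = 0
  · left; rw [hy, mul_zero]
  have hx0 : x ≠ 0 := by
    rintro rfl
    rw [P.ord_zero] at hP; omega
  right
  rw [P.ord_mul (zpow_ne_zero _ hx0) hy, P.ord_zpow]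
  have h1 : -((∑ P ∈ hfin.toFinset, (P.ord y).natAbs : ℕ) : ℤ) ≤ P.ord y := by
    by_cases h2 : P ∈ hfin.toFinset
    · have := Finset.single_le_sum (f := fun P : Place k F => (P.ord y).natAbs)
        (fun _ _ => Nat.zero_le _) h2
      have h3 : (P.ord y).natAbs ≤ ∑ P ∈ hfin.toFinset, (P.ord y).natAbs := this
      omega
    · have h3 : P.ord y = 0 := by
        by_contra h
        exact h2 (hfin.mem_toFinset.2 h)
      rw [h3]
      have : (0 : ℤ) ≤ ((∑ P ∈ hfin.toFinset, (P.ord y).natAbs : ℕ) : ℤ) := by positivity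
      omega
  have h2 : (j - 1) * (-1) ≤ (j - 1) * P.ord x := by
    apply mul_le_mul_of_nonpos_left
    · omega
    · have : (0 : ℤ) ≤ ((∑ P ∈ hfin.toFinset, (P.ord y).natAbs : ℕ) : ℤ) := by positivity
      omega
  have h3 := hA P
  omega

/-- the generating series of the values of the functional on `x ^ j y` -/
noncomputable def ST
    (hb : ∀ y : F, BddBelow (Function.support fun j : ℤ => lam (x ^ (j - 1) * y))) :
    F →+ HahnSeries ℤ k where
  toFun y := HahnSeries.ofSuppBddBelow (fun j : ℤ => lam (x ^ (j - 1) * y)) (hb y)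
  map_zero' := by
    ext j
    simp
  map_add' a b := by
    ext j
    simp [mul_add]

variable (hb : ∀ y : F, BddBelow (Function.support fun j : ℤ => lam (x ^ (j - 1) * y)))

theorem ST_coeff (y : F) (j : ℤ) : (ST lam hb y).coeff j = lam (x ^ (j - 1) * y) := rfl

theorem ST_C (a : k) (y : F) : ST lam hb (algebraMap k F a * y) = HahnSeries.C a * ST lam hb y := by
  ext j
  rw [ST_coeff, HahnSeries.C_mul_eq_smul, HahnSeries.coeff_smul, ST_coeff, ← Algebra.smul_def,
    mul_smul_comm, map_smul]

theorem ST_X (hx0 : x ≠ 0) (y : F) : ST lam hb (x * y) = U * ST lam hb y := by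
  ext j
  have h := HahnSeries.coeff_single_mul_add (r := (1 : k)) (x := ST lam hb y) (a := j + 1) (b := (-1 : ℤ))
  rw [show j + 1 + (-1 : ℤ) = j by ring] at h
  unfold U
  rw [h, ST_coeff, ST_coeff, one_mul, ← mul_assoc, ← zpow_add_one₀ hx0]
  congr 2
  ring_nf

theorem ST_poly (hx0 : x ≠ 0) (p : k[X]) : ∀ y : F,
    ST lam hb (aeval x p * y) = eU p * ST lam hb y := by
  induction p using Polynomial.induction_on' with
  | add p q hp hq =>
    intro y
    rw [map_add, map_add, add_mul, add_mul, map_add, hp, hq]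
  | monomial n a =>
    induction n generalizing a with
    | zero =>
      intro y
      rw [monomial_zero_left, aeval_C, eU_C, ST_C]
    | succ n ih =>
      intro y
      rw [← monomial_mul_X, map_mul (aeval x), map_mul eU, aeval_X, eU_X, mul_assoc, ih,
        ST_X lam hb hx0, mul_assoc]

variable [CharZero k] [IsFF k F]

theorem ST_of_BB (hB : ∀ y ∈ BB (k := k) x, lam y = 0) {y : F} (hy : y ∈ BB (k := k) x) :
    ∃ p : k[X], eU p = ST lam hb y := by
  apply exists_poly_of_coeff
  intro j hj
  rw [ST_coeff]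
  apply hB
  obtain ⟨n, hn⟩ := Int.eq_ofNat_of_zero_le (show 0 ≤ j - 1 by omega)
  rw [hn, zpow_natCast]
  exact BB_mul_pow hy n

variable [IsAlgClosed k]

theorem ST_mem (hx : Transcendental k x) (hB : ∀ y ∈ BB (k := k) x, lam y = 0) (y : F) :
    ∃ r : k⟮x⟯, iota hx r = ST lam hb y := by
  have hx0 : x ≠ 0 := by
    rintro rfl
    exact hx isAlgebraic_zero
  obtain ⟨g, hg, hgy, -⟩ := clear hx y
  obtain ⟨p, hp⟩ := ST_of_BB lam hb hB hgy
  rw [ST_poly lam hb hx0] at hp
  refine ⟨px x p / px x g, ?_⟩
  rw [map_div₀, iota_px, iota_px, hp, mul_div_cancel_left₀ _ (eU_ne hg)]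

theorem ST_smul (hx : Transcendental k x) (r : k⟮x⟯) (y : F) :
    ST lam hb ((r : F) * y) = iota hx r * ST lam hb y := by
  have hx0 : x ≠ 0 := by
    rintro rfl
    exact hx isAlgebraic_zero
  obtain ⟨p, g, hg, h⟩ := exists_px_div r
  have h1 : (r : F) * aeval x g = aeval x p := by
    have := congrArg (Subtype.val : k⟮x⟯ → F) h
    rw [← coe_px, ← coe_px]
    exact this
  have h2 := ST_poly lam hb hx0 g ((r : F) * y)
  rw [← mul_assoc, mul_comm (aeval x g), h1, ST_poly lam hb hx0] at h2
  have h3 := congrArg (iota hx) h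
  rw [map_mul, iota_px, iota_px] at h3
  apply mul_left_cancel₀ (eU_ne hg)
  rw [← h2, ← h3]; ring

/-- The functional is the coefficient functional of the trace form with a fixed multiplier. -/
theorem exists_mul (hx : Transcendental k x) (hB : ∀ y ∈ BB (k := k) x, lam y = 0)
    (hne : lam ≠ 0) :
    ∃ f : F, f ≠ 0 ∧ ∀ y, iota hx (Algebra.trace k⟮x⟯ F (f * y)) = ST lam hb y := by
  classical
  choose T hT using ST_mem lam hb hx hB
  let T' : F →ₗ[k⟮x⟯] k⟮x⟯ :=
    { toFun := T
      map_add' := by
        intro a b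
        apply iota_injective hx
        rw [map_add, hT, hT, hT, map_add]
      map_smul' := by
        intro r y
        apply iota_injective hx
        rw [hT, RingHom.id_apply, smul_eq_mul, map_mul, hT]
        exact ST_smul lam hb hx r y }
  have hfin := IsFF.finite hx
  have hchar : CharZero k⟮x⟯ := charZero_of_injective_algebraMap (algebraMap k k⟮x⟯).injective
  have hsep : Algebra.IsSeparable k⟮x⟯ F := inferInstance
  have hnd := traceForm_nondegenerate k⟮x⟯ F
  obtain ⟨f, hf⟩ := (LinearMap.BilinForm.toDual (Algebra.traceForm k⟮x⟯ F) hnd).surjective T'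
  have hf' : ∀ y, Algebra.trace k⟮x⟯ F (f * y) = T y := by
    intro y
    have := congrArg (fun φ : Module.Dual k⟮x⟯ F => φ y) hf
    have h2 : Algebra.trace k⟮x⟯ F (f * y) = T' y := by
      simpa [LinearMap.BilinForm.toDual_def, Algebra.traceForm_apply] using this
    exact h2
  refine ⟨f, ?_, fun y => by rw [hf', hT]⟩
  rintro rfl
  apply hne
  ext y
  have h1 := hf' y
  rw [zero_mul, map_zero] at h1
  have h2 := hT y
  rw [← h1, map_zero] at h2
  have h3 := congrArg (fun s : HahnSeries ℤ k => s.coeff 1) h2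
  simp only [ST_coeff, HahnSeries.coeff_zero, sub_self, zpow_zero, one_mul] at h3
  rw [← h3]; rfl

/-- the differential is regular at the places which are not poles of `x` -/
theorem mul_regular {x : F} (hx : Transcendental k x) (D : Derivation k F F) (hD : D x = 1)
    (lam : F →ₗ[k] k)
    (hb : ∀ y : F, BddBelow (Function.support fun j : ℤ => lam (x ^ (j - 1) * y)))
    (hB : ∀ y ∈ BB (k := k) x, lam y = 0)
    {f : F} (hf0 : f ≠ 0)
    (hf : ∀ y, iota hx (Algebra.trace k⟮x⟯ F (f * y)) = ST lam hb y) (P : Place k F)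
    (hPx : 0 ≤ P.ord x) : vo P D ≤ P.ord f := by
  classical
  have hD0 : D ≠ 0 := by
    rintro rfl
    simp at hD
  have hfin := IsFF.finite hx
  have hx0 : x ≠ 0 := by
    rintro rfl
    exact hx isAlgebraic_zero
  by_contra hcon
  push Not at hcon
  have hsF : IsScalarTower k k⟮x⟯ F := inferInstance
  let xx : k⟮x⟯ := ⟨x, mem_adjoin_simple_self k x⟩
  -- x is regular at P
  obtain ⟨c, hc⟩ := exists_const P (f := x) (Or.inr hPx)
  have hs0 := sub_const_ne (k := k) hx c
  have hc' := hc.resolve_left hs0
  set s : F := x - algebraMap k F c with hs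
  let ss : k⟮x⟯ := xx - algebraMap k k⟮x⟯ c
  have hss : algebraMap k⟮x⟯ F ss = s := rfl
  obtain ⟨e0, q, hq⟩ := exists_over (K := k⟮x⟯) P ⟨ss, by
    rw [hss]; omega⟩
  have hDs : D s = 1 := by
    rw [hs, map_sub, hD, Derivation.map_algebraMap, sub_zero]
  have hvo := (ord_der P hD0 (f := s) (by omega)).2
  rw [hDs, P.ord_one] at hvo
  have hfs := finite_support (k := k) s
  have hqs : 0 < q.ord ss := by
    have h1 := hq.2 ss
    rw [hss] at h1
    have h16 : (0 : ℤ) < e0 * q.ord ss := by omega
    exact (pos_iff_pos_of_mul_pos h16).1 (by exact_mod_cast hq.1)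
  obtain ⟨b, hb1, hb2⟩ := exists_contra q P e0 hq (hfs.toFinset.filter fun w => 0 < w.ord s)
    (by
      intro w e hw
      have h1 := hw.2 ss
      rw [hss] at h1
      have h3 := hw.1
      have h4 : 0 < (e : ℤ) * q.ord ss := mul_pos (by exact_mod_cast h3) hqs
      rw [Finset.mem_filter, hfs.mem_toFinset]
      refine ⟨?_, by omega⟩
      show w.ord s ≠ 0
      omega)
    (s * f) (mul_ne_zero hs0 hf0) (by rw [P.ord_mul hs0 hf0]; omega)
  apply hb2
  set r := Algebra.trace k⟮x⟯ F (f * b) with hr
  have h5 : Algebra.trace k⟮x⟯ F (s * f * b) = ss * r := by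
    rw [hr, mul_assoc]
    exact trace_mul_left ss (f * b)
  rw [h5]
  -- clear denominators
  obtain ⟨g, hg0, hgB, hgc⟩ := clear hx b
  have hgc' : g.eval c ≠ 0 := by
    apply hgc
    intro w hw
    change 0 < w.ord s at hw
    apply hb1
    rw [Finset.mem_filter, hfs.mem_toFinset]
    refine ⟨?_, hw⟩
    show w.ord s ≠ 0
    omega
  obtain ⟨p, hp⟩ := ST_of_BB lam hb hB hgB
  have h6 : px x g * r = px x p := by
    apply iota_injective hx
    rw [map_mul, iota_px, iota_px, hp, ST_poly lam hb hx0, ← hf b]
  -- regularity at q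
  have hqx : Ge q 0 xx := by
    have h7 : Ge q 1 ss := Or.inr (by omega)
    have h8 := (h7.mono (by omega : (0 : ℤ) ≤ 1)).add (Ge.const (P := q) c)
    have e : ss + algebraMap k k⟮x⟯ c = xx := sub_add_cancel _ _
    rwa [e] at h8
  have hpr : Ge q 0 (px x p) := ge_aeval q hqx p
  have hgr : q.ord (px x g) = 0 := by
    have h7 : Ge q 0 (px x g) := ge_aeval q hqx g
    have h8 : Ge q 1 (px x g - algebraMap k k⟮x⟯ (g.eval c)) := by
      have h9 : X - C c ∣ g - C (g.eval c) := by
        rw [dvd_iff_isRoot]; simp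
      obtain ⟨g', hg'⟩ := h9
      have h10 : px x g - algebraMap k k⟮x⟯ (g.eval c) = ss * px x g' := by
        have := congrArg (px x) hg'
        rw [map_sub, map_mul, map_sub] at this
        have e1 : px x (C (g.eval c)) = algebraMap k k⟮x⟯ (g.eval c) := by
          unfold px; rw [aeval_C]
        have e2 : px x (X : k[X]) - px x (C c) = ss := by
          unfold px; rw [aeval_X, aeval_C]
        rw [e1, e2] at this
        exact this
      rw [h10]
      have h11 : Ge q 1 ss := Or.inr (by omega)
      have h12 : Ge q 0 (px x g') := ge_aeval q hqx g'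
      have h13 := h11.mul h12
      rwa [add_zero] at h13
    have h12 : q.ord (algebraMap k k⟮x⟯ (g.eval c)) = 0 := q.ord_const hgc'
    have hne : algebraMap k k⟮x⟯ (g.eval c) ≠ 0 := by simpa using hgc'
    by_cases h13 : px x g - algebraMap k k⟮x⟯ (g.eval c) = 0
    · rw [sub_eq_zero.1 h13, h12]
    · have h14 := h8.resolve_left h13
      have h15 := q.ord_add_eq hne h13 (by omega)
      rw [add_sub_cancel, h12] at h15
      exact h15.2
  have hr1 : Ge q 0 r := by
    have h7 := Ge.of_mul' (P := q) (N := 0) (m := 0) (h := px x g) (f := r)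
      (fun h => hg0 (px_injective hx (by rw [h, map_zero]))) hgr (by rw [h6]; simpa using hpr)
    simpa using h7
  have h11 : Ge q 1 ss := Or.inr (by omega)
  simpa using h11.mul hr1

end

end Pool.Agent.K4H25.LP
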