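import Pool.Agent.K4H25.LP.Rr

/-!
Open curves without logarithmic differentials.
-/

set_option autoImplicit false
set_option linter.overlappingInstances false
set_option linter.unusedSectionVars false
set_option maxHeartbeats 4000000
set_option synthInstance.maxHeartbeats 400000

open Polynomial FF IsDedekindDomain IntermediateField

namespace Pool.Agent.K4H25.LP

open Pool.Agent.W603.LV Pool.Agent.K4H25.PC

section

variable {k E : Type*} [Field k] [Field E] [Algebra k E] [CharZero k] [IsFF k E] [IsAlgClosed k]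

theorem exists_place_notMem (T : Finset (Place k E)) : ∃ P : Place k E, P ∉ T := by
  classical
  obtain ⟨x0, hx0⟩ := IsFF.exists_transcendental (k := k) (K := E)
  obtain ⟨x, hx, hxT⟩ : ∃ x : E, Transcendental k x ∧ ∀ P ∈ T, P.ord x < 0 := by
    by_cases hT : T.Nonempty
    · obtain ⟨P, hP⟩ := hT
      obtain ⟨x, hx⟩ := exists_simple_poles T
      exact ⟨x, P.transcendental_of_ord_ne (by rw [(hx P hP).2]; omega),
        fun Q hQ => by rw [(hx Q hQ).2]; omega⟩
    · exact ⟨x0, hx0, fun P hP => absurd ⟨P, hP⟩ hT⟩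
  obtain ⟨S, hS, -, hS3⟩ := zeros (k := k) (K := E) (f := x) hx
  have hfin := IsFF.finite (k := k) (K := E) (f := x) hx
  have hpos : 0 < Module.finrank k⟮x⟯ E := Module.finrank_pos
  obtain ⟨P, hP⟩ : S.Nonempty := by
    rw [Finset.nonempty_iff_ne_empty]
    rintro rfl
    rw [Finset.sum_empty] at hS3
    omega
  refine ⟨P, fun h => ?_⟩
  have h1 := (hS P).1 hP
  have h2 := hxT P h
  omega

/-- **Open curves without logarithmic differentials.** The curve is the projective line and the
boundary has at most one point. -/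
theorem log_or_line {D : Derivation k E E} (hD : D ≠ 0) (TE : Place k E → Prop) :
    (∃ f : E, f ≠ 0 ∧ (∀ q : Place k E, vo q D ≤ q.ord f + 1) ∧
      ∀ q : Place k E, ¬ TE q → vo q D ≤ q.ord f) ∨
    ∃ s : E, IntermediateField.adjoin k {s} = ⊤ ∧ ∀ q : Place k E, q.Reg s → ¬ TE q := by
  classical
  have key : ∀ T : Finset (Place k E), (∀ q ∈ T, TE q) →
      (∀ b : E, Transcendental k b → (∀ P ∈ T, 0 < P.ord b) → 1 < Module.finrank k⟮b⟯ E) →
      ∃ f : E, f ≠ 0 ∧ (∀ q : Place k E, vo q D ≤ q.ord f + 1) ∧
        ∀ q : Place k E, ¬ TE q → vo q D ≤ q.ord f := by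
    intro T hT hgon
    obtain ⟨P0, hP0⟩ := exists_place_notMem T
    obtain ⟨f, hf0, h1, h2, -, -⟩ := exists_sep_log hD P0 ∅ T (by simp) hP0 (by simp)
      (by simpa using hgon)
    refine ⟨f, hf0, fun q => ?_, fun q hq => h1 q fun h => hq (hT q h)⟩
    by_cases hq : q ∈ T
    · exact h2 q hq
    · have := h1 q hq
      omega
  have hone : ∀ b : E, Transcendental k b → Module.finrank k⟮b⟯ E ≤ 1 →
      IntermediateField.adjoin k {b} = ⊤ := by
    intro b hb h
    have hfin := IsFF.finite (k := k) (K := E) (f := b) hb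
    have hpos : 0 < Module.finrank k⟮b⟯ E := Module.finrank_pos
    exact IntermediateField.finrank_eq_one_iff_eq_top.1 (by omega)
  by_cases hTE : ∃ q0, TE q0
  · obtain ⟨q0, hq0⟩ := hTE
    by_cases h1 : ∃ b : E, Transcendental k b ∧ 0 < q0.ord b ∧ Module.finrank k⟮b⟯ E ≤ 1
    · obtain ⟨b, hb, hb0, hb1⟩ := h1
      by_cases h2 : ∃ q1, TE q1 ∧ q1 ≠ q0
      · obtain ⟨q1, hq1, hne⟩ := h2
        left
        refine key {q0, q1} (by simp [hq0, hq1]) fun c hc hcT => ?_
        obtain ⟨S, hS, -, hS3⟩ := zeros (k := k) (K := E) (f := c) hc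
        have hsub : ({q0, q1} : Finset (Place k E)) ⊆ S := fun q hq => (hS q).2 (hcT q hq)
        have h3 : ∑ w ∈ ({q0, q1} : Finset (Place k E)), 1 ≤
            ∑ w ∈ S, (w.ord c).toNat * w.deg := by
          refine (Finset.sum_le_sum fun w hw => ?_).trans
            (Finset.sum_le_sum_of_subset hsub)
          have h4 := hcT w hw
          rw [deg_one, mul_one]
          omega
        rw [hS3, Finset.sum_const, Finset.card_pair hne.symm] at h3
        simp at h3
        omega
      · push Not at h2
        right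
        refine ⟨b⁻¹, ?_, fun q hq hTq => ?_⟩
        · rw [adjoin_inv]
          exact hone b hb hb1
        · have h3 := h2 q hTq
          subst h3
          rcases hq with hq | hq
          · rw [inv_eq_zero] at hq
            rw [hq, q.ord_zero] at hb0
            omega
          · rw [q.ord_inv] at hq
            omega
    · left
      push Not at h1
      exact key {q0} (by simp [hq0]) fun b hb hbT => h1 b hb (hbT q0 (by simp))
  · push Not at hTE
    by_cases h1 : ∃ b : E, Transcendental k b ∧ Module.finrank k⟮b⟯ E ≤ 1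
    · right
      obtain ⟨b, hb, hb1⟩ := h1
      exact ⟨b, hone b hb hb1, fun q _ => hTE q⟩
    · left
      push Not at h1
      exact key ∅ (by simp) fun b hb _ => h1 b hb

end

end Pool.Agent.K4H25.LP
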