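import Pool.Agent.K4H25.LP.Form
import Pool.Agent.K4H25.PC.Main

/-!
Images of open varieties over products of open curves.
-/

set_option autoImplicit false
set_option linter.overlappingInstances false
set_option linter.unusedSectionVars false
set_option maxHeartbeats 4000000
set_option synthInstance.maxHeartbeats 400000

open FF Module Pool.Agent Pool.Agent.W602.GT
open Pool.Agent.W603.LV (vo vo_eq Ge)
open Pool.Agent.R882.LT (TraceNe SecAt)

namespace Pool.Agent.K4H25.LP

open Pool.Agent.K4H25.MG Pool.Agent.K4H25.PC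

section

variable {K : Type} [Field K] [Algebra ℂ K] {n q : ℕ} {C : Fin q → IntermediateField ℂ K}
  [∀ p, IsFF ℂ (C p)]

/-- **The general theorem.** -/
theorem main_gen_log [Algebra.EssFiniteType ℂ K] (hK : Algebra.trdeg ℂ K = n)
    (hC : Algebra.trdeg ℂ (IntermediateField.adjoin ℂ {z | ∃ p, z ∈ C p}) = (q : ℕ))
    {M : Fin q → ℕ} {T : ∀ p, Finset (Place ℂ (C p))}
    (hgon : ∀ p (b : C p), Transcendental ℂ b → (∀ P ∈ T p, 0 < P.ord b) →
      M p + 1 < finrank (IntermediateField.adjoin ℂ {b}) (C p))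
    {D0 : ∀ p, Derivation ℂ (C p) (C p)} (hD0 : ∀ p, D0 p ≠ 0)
    {BK : Place ℂ K → Prop}
    {ω : (Fin n → Derivation ℂ K K) → K} (hω : IsPluri 1 ω)
    (hreg : ∀ g : ∀ p, C p, (∀ p, LR (T p) (D0 p) (g p)) →
      ∀ P : Place ℂ K, Divisorial n P → SecAt BK P (fun D => (∏ p, (g p : K)) * ω D))
    (L : Type) [Field L] [Algebra ℂ L] [Algebra L K] [IsScalarTower ℂ L K]
    [FiniteDimensional L K] {BL : Place ℂ L → Prop}
    (hB : ∀ (P : Place ℂ L) (Q : Place ℂ K) (e : ℕ), Over Q P e → BK Q → BL P)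
    (htn : TraceNe ω ((IntermediateField.adjoin L {z | ∃ p, z ∈ C p}).restrictScalars ℂ))
    (hm : ∀ Λ : Finset (Fin q), Λ.Nonempty → cdeg L C Λ ≤ ∑ b ∈ Λ, M b + 1) :
    (∃ η : (Fin n → Derivation ℂ L L) → L, LogSec ℂ L n 1 BL η ∧ ∃ D, η D ≠ 0) ∧
    ∀ r : ℕ, r ≤ q →
      (∀ Λ : Finset (Fin q), q < r + Λ.card → 2 * cdeg L C Λ ≤ ∑ b ∈ Λ, M b + 1) →
      KodGe ℂ L n BL r := by
  classical
  obtain ⟨N, β, t, htC, hgens⟩ := exists_gens (C := C)
  have hempty : ∀ (L : Type) [Field L] [Algebra ℂ L] [Algebra L K] [IsScalarTower ℂ L K],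
      IntermediateField.adjoin L (Set.range t) = IntermediateField.adjoin L {z | ∃ p, z ∈ C p} := by
    intro L _ _ _ _
    have h1 := hgens ∅ L
    have h2 : t '' {j | β j ∉ (∅ : Finset (Fin q))} = Set.range t := by
      rw [← Set.image_univ]
      congr 1
      ext j
      simp
    have h3 : {z : K | ∃ p, p ∉ (∅ : Finset (Fin q)) ∧ z ∈ C p} = {z | ∃ p, z ∈ C p} := by
      ext z
      simp
    rw [h2, h3] at h1
    exact h1
  have hfd : ∀ Λ, fdeg L β t Λ = cdeg L C Λ := by
    intro Λ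
    rw [fdeg, cdeg, hgens Λ L, hempty L]
  choose m g hg1 hg2 using fun p => exists_log_fam (F := C p) (T p) (hD0 p)
  have hmem : ∀ p (z : C p), (z : K) ∈ IntermediateField.adjoin L (Set.range t) := by
    intro p z
    rw [hempty L]
    exact IntermediateField.subset_adjoin L _ ⟨p, z.2⟩
  have hTow : IsScalarTower ℂ (IntermediateField.adjoin L (Set.range t)) K :=
    IsScalarTower.of_algebraMap_eq fun r => rfl
  let iF : ∀ p, C p →ₐ[ℂ] IntermediateField.adjoin L (Set.range t) := fun p =>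
    { toFun := fun z => ⟨(z : K), hmem p z⟩
      map_one' := rfl
      map_mul' := fun _ _ => rfl
      map_zero' := rfl
      map_add' := fun _ _ => rfl
      commutes' := fun c => Subtype.ext (IsScalarTower.algebraMap_apply ℂ
        (IntermediateField.adjoin L (Set.range t)) K c) }
  obtain ⟨x', hx'⟩ : ∃ x' : Fin N → IntermediateField.adjoin L (Set.range t),
    ∀ j, (x' j : K) = t j :=
    ⟨fun j => ⟨t j, IntermediateField.subset_adjoin L _ ⟨j, rfl⟩⟩, fun _ => rfl⟩
  have hG : SepSys β M x' (fun a : (∀ p, Fin (m p)) => ∏ p, iF p (g p (a p))) := by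
    refine sepSys_prod (g := fun p a => iF p (g p a)) fun p => ?_
    refine (sepFam_log (T p) (hgon p) (hD0 p) (hg2 p)).comp (iF p) ?_
    rintro _ ⟨j, rfl, rfl⟩
    refine ⟨⟨t j, htC j⟩, ?_⟩
    apply Subtype.ext
    exact (hx' j).symm
  have htn' : TraceNe ω ((IntermediateField.adjoin L (Set.range t)).restrictScalars ℂ) := by
    rw [hempty L]
    exact htn
  have hd' : Algebra.trdeg ℂ (IntermediateField.adjoin ℂ (Set.range t)) = (q : ℕ) := by
    rw [hempty ℂ]
    exact hC
  obtain ⟨h1, h2⟩ := core_log (β := β) (M := M) (G := fun a : (∀ p, Fin (m p)) =>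
      ∏ p, iF p (g p (a p))) hK hd' hB hω (fun a P hP => by
      have h3 := hreg (fun p => g p (a p)) (fun p => hg1 p (a p)) P hP
      have h4 : ((∏ p, iF p (g p (a p)) : IntermediateField.adjoin L (Set.range t)) : K) =
          ∏ p, (g p (a p) : K) :=
        map_prod (IntermediateField.adjoin L (Set.range t)).val _ _
      rw [h4]
      exact h3) hx' hG htn' (fun Λ hΛ => by rw [hfd]; exact hm Λ hΛ)
  refine ⟨h1, fun r hr hk => h2 r hr fun Λ hΛ hΛr => ?_⟩
  rw [hfd]
  apply hk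
  -- coordinates
  have hx : ∀ p, ∃ x : C p, Transcendental ℂ x := fun p =>
    IsFF.exists_transcendental (k := ℂ) (K := C p)
  choose x hx using hx
  have hind := indep hC hx
  rw [hgens Λ ℂ] at hΛr
  have hxm : ∀ p : {p // p ∉ Λ}, (x p.1 : K) ∈
      IntermediateField.adjoin ℂ {z : K | ∃ p, p ∉ Λ ∧ z ∈ C p} := fun p =>
    IntermediateField.subset_adjoin ℂ _ ⟨p.1, p.2, (x p.1).2⟩
  have hind' : AlgebraicIndependent ℂ (fun p : {p // p ∉ Λ} =>
      (⟨(x p.1 : K), hxm p⟩ : IntermediateField.adjoin ℂ {z : K | ∃ p, p ∉ Λ ∧ z ∈ C p})) := by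
    apply AlgebraicIndependent.of_comp
      (IntermediateField.adjoin ℂ {z : K | ∃ p, p ∉ Λ ∧ z ∈ C p}).val
    exact hind.comp (fun p : {p // p ∉ Λ} => p.1) Subtype.val_injective
  have h3 := hind'.cardinalMk_le_trdeg.trans_lt hΛr
  have h4 : Fintype.card {p // p ∉ Λ} < r := by
    rw [Cardinal.mk_fintype] at h3
    exact_mod_cast h3
  have h5 : Fintype.card {p // p ∉ Λ} = q - Λ.card := by
    rw [Fintype.card_subtype_compl, Fintype.card_fin, Fintype.card_coe]
  have h6 : Λ.card ≤ q := by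
    have := Finset.card_le_univ Λ
    simpa using this
  omega

end

section

variable {K : Type} [Field K] [Algebra ℂ K] {n : ℕ} {C : Fin n → IntermediateField ℂ K}
  [∀ p, IsFF ℂ (C p)]

/-- the vector fields on the curves -/
theorem exists_dual_fields {q : ℕ} {C : Fin q → IntermediateField ℂ K} [∀ p, IsFF ℂ (C p)] :
    ∃ (x : ∀ p, C p) (D0 : ∀ p, Derivation ℂ (C p) (C p)), (∀ p, Transcendental ℂ (x p)) ∧
      (∀ p, D0 p (x p) = 1) ∧ ∀ p, D0 p ≠ 0 := by
  have hx : ∀ p, ∃ x : C p, Transcendental ℂ x := fun p =>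
    IsFF.exists_transcendental (k := ℂ) (K := C p)
  choose x hx using hx
  have hDx : ∀ p, ∃ D : Derivation ℂ (C p) (C p), D (x p) = 1 := by
    intro p
    have h1 := Pool.Agent.W603.LV.der_ne (k := ℂ) (K := C p)
    have h2 := Pool.Agent.W603.LV.der_ne_zero h1 (hx p)
    refine ⟨(Pool.Agent.W603.LV.der ℂ (C p) (x p))⁻¹ • Pool.Agent.W603.LV.der ℂ (C p), ?_⟩
    rw [Derivation.coe_smul, Pi.smul_apply, smul_eq_mul, inv_mul_cancel₀ h2]
  choose D0 hD0 using hDx
  refine ⟨x, D0, hx, hD0, fun p h => ?_⟩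
  have h1 := hD0 p
  rw [h] at h1
  simp at h1

/-- the trace of `dx 1 ∧ ... ∧ dx n` -/
theorem traceNe_det [Algebra.EssFiniteType ℂ K] (hK : Algebra.trdeg ℂ K = n)
    (hC : Algebra.trdeg ℂ (IntermediateField.adjoin ℂ {z | ∃ p, z ∈ C p}) = (n : ℕ))
    {x : ∀ p, C p} (hx : ∀ p, Transcendental ℂ (x p))
    (L : Type) [Field L] [Algebra ℂ L] [Algebra L K] [IsScalarTower ℂ L K]
    [FiniteDimensional L K] :
    TraceNe (fun D : Fin n → Derivation ℂ K K => (Matrix.of fun i j => D i (x j : K)).det)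
      ((IntermediateField.adjoin L {z | ∃ p, z ∈ C p}).restrictScalars ℂ) := by
  classical
  have hind := indep hC hx
  obtain ⟨F', hF'⟩ : ∃ F' : IntermediateField L K,
    F' = IntermediateField.adjoin L {z | ∃ p, z ∈ C p} := ⟨_, rfl⟩
  rw [← hF']
  have hfin : FiniteDimensional (F'.restrictScalars ℂ) K := by
    have h1 : FiniteDimensional F' K := inferInstance
    exact h1
  have htrF : Algebra.trdeg ℂ (F'.restrictScalars ℂ) = n := by
    have h1 : Algebra.IsAlgebraic (F'.restrictScalars ℂ) K := inferInstance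
    exact Pool.Agent.Y184.NT.trdeg_below (K := K) hK
  have hxF : ∀ p, (x p : K) ∈ F'.restrictScalars ℂ := by
    intro p
    rw [hF']
    exact IntermediateField.subset_adjoin L _ ⟨p, (x p).2⟩
  have hbasis : IsTranscendenceBasis ℂ (fun p => (⟨(x p : K), hxF p⟩ : F'.restrictScalars ℂ)) := by
    have h1 : AlgebraicIndependent ℂ (fun p => (⟨(x p : K), hxF p⟩ : F'.restrictScalars ℂ)) := by
      apply AlgebraicIndependent.of_comp (F'.restrictScalars ℂ).val
      exact hind
    refine h1.isTranscendenceBasis_of_lift_trdeg_le_of_finite ?_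
    rw [htrF]
    simp
  choose D hD using fun j => Pool.Agent.W619.PQ.exists_dual _ hbasis j
  choose D' hD' using fun j => Pool.Agent.Y172.exists_lift (k := ℂ) (K := F'.restrictScalars ℂ)
    (L := K) (n := n) htrF (D j)
  refine ⟨D, D', hD', ?_⟩
  have h1 : (Matrix.of fun i j => D' i (x j : K)).det = 1 := by
    have h2 : (Matrix.of fun i j => D' i (x j : K) : Matrix (Fin n) (Fin n) K) = 1 := by
      ext i j
      rw [Matrix.of_apply, Matrix.one_apply]
      have h3 := hD' i ⟨(x j : K), hxF j⟩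
      rw [hD i j] at h3
      have h4 : (D' i) (x j : K) = algebraMap (F'.restrictScalars ℂ) K (if j = i then 1 else 0) := h3
      rw [h4]
      by_cases hij : i = j
      · rw [if_pos hij.symm, if_pos hij, map_one]
      · rw [if_neg (fun h => hij h.symm), if_neg hij, map_zero]
    rw [h2, Matrix.det_one]
  change Algebra.trace (F'.restrictScalars ℂ) K (Matrix.of fun i j => D' i (x j : K)).det ≠ 0
  have h5 : 0 < finrank (F'.restrictScalars ℂ) K := finrank_pos
  rw [h1, ← map_one (algebraMap (F'.restrictScalars ℂ) K), Algebra.trace_algebraMap,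
    nsmul_eq_mul, mul_one]
  exact_mod_cast h5.ne'

/-- **Open varieties which are generically finite over a product of open curves.** -/
theorem main_curves_log [Algebra.EssFiniteType ℂ K] (hK : Algebra.trdeg ℂ K = n)
    (hC : Algebra.trdeg ℂ (IntermediateField.adjoin ℂ {z | ∃ p, z ∈ C p}) = (n : ℕ))
    {M : Fin n → ℕ} {T : ∀ p, Finset (Place ℂ (C p))}
    (hgon : ∀ p (b : C p), Transcendental ℂ b → (∀ P ∈ T p, 0 < P.ord b) →
      M p + 1 < finrank (IntermediateField.adjoin ℂ {b}) (C p))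
    {BK : Place ℂ K → Prop} (hBK : ∀ P, PBd T P → BK P)
    (L : Type) [Field L] [Algebra ℂ L] [Algebra L K] [IsScalarTower ℂ L K]
    [FiniteDimensional L K] {BL : Place ℂ L → Prop}
    (hB : ∀ (P : Place ℂ L) (Q : Place ℂ K) (e : ℕ), Over Q P e → BK Q → BL P)
    (hm : ∀ Λ : Finset (Fin n), Λ.Nonempty → cdeg L C Λ ≤ ∑ b ∈ Λ, M b + 1) :
    (∃ η : (Fin n → Derivation ℂ L L) → L, LogSec ℂ L n 1 BL η ∧ ∃ D, η D ≠ 0) ∧
    ∀ r : ℕ, r ≤ n →
      (∀ Λ : Finset (Fin n), n < r + Λ.card → 2 * cdeg L C Λ ≤ ∑ b ∈ Λ, M b + 1) →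
      KodGe ℂ L n BL r := by
  obtain ⟨x, D0, hx, hD0, hD00⟩ := exists_dual_fields (C := C)
  refine main_gen_log (BK := BK) hK hC hgon hD00 (pluri_det fun p => (x p : K))
    (fun g hg P _ => ?_) L hB (traceNe_det hK hC hx L) hm
  obtain ⟨h1, h2⟩ := sec_prod hD0 hg P
  exact ⟨h1, fun h => h2 fun h' => h (hBK P h')⟩

end

end Pool.Agent.K4H25.LP
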