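import Pool.Agent.K4H25.PC.PrdSpan
import Pool.Agent.K4H25.LP.Dich
import Pool.Agent.K4H25.LP.Form

/-!
The logarithmic differentials of the fibres of a product of open curves.
-/

set_option autoImplicit false
set_option linter.overlappingInstances false
set_option linter.unusedSectionVars false
set_option maxHeartbeats 4000000
set_option synthInstance.maxHeartbeats 400000

open Polynomial FF IntermediateField Pool.Agent.W603.LV Pool.Agent.W619.PQ Pool.Agent.W619.TW
open Pool.Agent.W602.GT (Divisorial RegAt IsPluri)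
open Pool.Agent.TH466.QG (pullPl)

namespace Pool.Agent.K4H25.LP

open Pool.Agent.K4H25.PC

theorem place_ext {k F : Type*} [Field k] [Field F] [Algebra k F] {P Q : Place k F}
    (h : ∀ z, P.ord z = Q.ord z) : P = Q := by
  have h1 : P.ord = Q.ord := funext h
  cases P
  cases Q
  congr

section

variable {k L : Type*} [Field k] [Field L] [Algebra k L] [CharZero k] [IsAlgClosed k]
  {M F : IntermediateField k L}

/-- **Logarithmic differentials** on a constant curve are combinations of the logarithmic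
differentials over the constants. -/
theorem cur_log_span (h : Cur M F) {x : F} {D0 : Derivation k F F} (hD0 : D0 x = 1)
    (hx : Transcendental k x) {D : Derivation k L L} (hDM : ∀ z ∈ M, D z = 0)
    (hDx : D (x : L) = 1) (T : Finset (Place k F)) {z : L}
    (hz : ∀ (w : Place M L) (π : L), w.ord π = 1 → w.ord (D π) ≤ w.ord z + 1)
    (hz' : ∀ (w : Place M L) (π : L), w.ord π = 1 →
      (∀ (q : Place k F) (e : ℕ), 0 < e → (∀ β : F, w.ord (β : L) = e * q.ord β) → q ∉ T) →
      w.ord (D π) ≤ w.ord z) :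
    ∃ (s : Finset (Module.Basis.ofVectorSpaceIndex k M))
      (β : Module.Basis.ofVectorSpaceIndex k M → F),
      z = ∑ i ∈ s, ((Module.Basis.ofVectorSpace k M i : M) : L) * (β i : L) ∧
      ∀ i ∈ s, β i = 0 ∨ ((∀ q : Place k F, q ∉ T → vo q D0 ≤ q.ord (β i)) ∧
        ∀ q ∈ T, vo q D0 ≤ q.ord (β i) + 1) := by
  classical
  have hff := h.ff
  have hD00 : D0 ≠ 0 := by
    rintro rfl
    simp at hD0
  have hext : ∀ β : F, D (β : L) = ((D0 β : F) : L) := by
    intro β
    obtain ⟨r, hr1, hr2⟩ := ratio' (K := L) hx β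
    have h1 := hr1 D0
    have h2 := hr2 D
    change D (β : L) = (r : L) * D (x : L) at h2
    rw [hDx, mul_one] at h2
    rw [hD0, mul_one] at h1
    rw [h2, h1]
  obtain ⟨E, hE⟩ : ∃ E : Place k F →₀ ℤ, ∀ P, E P = - vo P D0 + if P ∈ T then 1 else 0 := by
    refine ⟨Finsupp.ofSupportFinite (fun P => - vo P D0 + if P ∈ T then 1 else 0) ?_,
      fun P => rfl⟩
    refine ((vo_finite hD00).union T.finite_toSet).subset fun P hP => ?_
    have h1 : - vo P D0 + (if P ∈ T then 1 else 0) ≠ 0 := hP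
    by_cases hPT : P ∈ T
    · exact Or.inr hPT
    · left
      rw [if_neg hPT] at h1
      show vo P D0 ≠ 0
      omega
  obtain ⟨s, β, hs, hβ⟩ := h.mem_span E z (fun w hw => by
      right
      obtain ⟨π, hπ0, hπ⟩ := w.surj
      have h1 := hz' w π hπ (fun q e he hq _ => by
        obtain ⟨t, ht0, ht⟩ := q.surj
        have h2 := hq t
        rw [hw, ht, mul_one] at h2
        have h3 : (0 : ℤ) < e := by exact_mod_cast he
        omega)
      have hpres := h.pres w D (fun z hz => by rw [hDM z hz]; exact zero_mem _) (fun β _ => by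
        rw [hext]
        exact Or.inr (hw _).ge)
      have h2 : w.Reg (D π) := hpres π (Or.inr (by
        change 0 ≤ w.ord π
        omega))
      rcases h2 with h2 | h2
      · rw [h2, w.ord_zero] at h1
        exact h1
      · exact h2.trans h1) (fun w q hq => by
      right
      obtain ⟨π, hπ0, hπ⟩ := q.surj
      rw [hE]
      by_cases hqT : q ∈ T
      · have h1 := hz w (π : L) (by rw [hq]; exact hπ)
        rw [hext, hq, vo_eq q hπ hD00] at h1
        rw [if_pos hqT]
        omega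
      · have h1 := hz' w (π : L) (by rw [hq]; exact hπ) (fun q' e he hq' h => by
          apply hqT
          have h3 : (0 : ℤ) < e := by exact_mod_cast he
          have h2 : (e : ℤ) * q'.ord π = 1 := by rw [← hq', hq, hπ]
          have h4 : (e : ℤ) = 1 := by
            have h5 : (e : ℤ) ∣ 1 := Dvd.intro _ h2
            exact Int.eq_one_of_dvd_one h3.le h5
          have h5 : q = q' := place_ext fun z => by
            have h6 := hq' z
            rw [hq z, h4, one_mul] at h6
            exact h6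
          rw [h5]
          exact h)
        rw [hext, hq, vo_eq q hπ hD00] at h1
        rw [if_neg hqT]
        omega)
  refine ⟨s, β, hs, fun i hi => ?_⟩
  have h1 := hβ i hi
  rw [mem_LL] at h1
  rcases h1 with h1 | h1
  · exact Or.inl h1
  · refine Or.inr ⟨fun q hq => ?_, fun q hq => ?_⟩
    · have h2 := h1 q
      rw [hE, if_neg hq] at h2
      omega
    · have h2 := h1 q
      rw [hE, if_pos hq] at h2
      omega

end

section

variable {K F Λ : Type} [Field K] [Algebra ℂ K] [Field Λ] [Algebra ℂ Λ] [Field F]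
  [Algebra Λ F] [Algebra ℂ F] [IsScalarTower ℂ Λ F]

/-- **The logarithmic differentials of the fibre.** -/
theorem fib_spanL (hFF : IsFF Λ F) [CharZero Λ] [IsAlgClosed Λ] {B C0 : IntermediateField ℂ K}
    (h : Cur B C0) (φ : K →ₐ[ℂ] F)
    (hgen : IntermediateField.adjoin Λ (Set.range φ) = ⊤)
    (hBΛ : ∀ z ∈ B, ∃ a : Λ, algebraMap Λ F a = φ z)
    (htr : ∀ z : K, ¬ IsAlgebraic B z → Transcendental Λ (φ z)) {x : C0}
    {D0 : Derivation ℂ C0 C0} (hD0 : D0 x = 1) (T : Finset (Place ℂ C0)) {m : ℕ} {s : Fin m → C0}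
    (hs : ∀ f : C0, f ≠ 0 → LR T D0 f → ∃ c : Fin m → ℂ, f = ∑ a, c a • s a)
    {D : Derivation Λ F F} (hD : D ≠ 0)
    {f : F} (hf : ∀ Q : Place Λ F, vo Q D ≤ Q.ord f + 1)
    (hf' : ∀ Q : Place Λ F, (∀ (q : Place ℂ C0) (e : ℕ), 0 < e →
      (∀ β : C0, Q.ord (φ β) = e * q.ord β) → q ∉ T) → vo Q D ≤ Q.ord f) :
    f ∈ Submodule.span Λ (Set.range fun j => φ (s j) * D (φ x)) := by
  classical
  have hff := h.ff
  have hcur := cur_base h φ hgen hBΛ htr
  have hff' := hcur.ff
  obtain ⟨V, hV⟩ : ∃ V : Submodule Λ F, V = Submodule.span Λ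
    (Set.range fun j => φ (s j) * D (φ x)) := ⟨_, rfl⟩
  rw [← hV]
  by_cases hf0 : f = 0
  · rw [hf0]
    exact V.zero_mem
  have hx := transcendental_of_der hD0
  have hxΛ : Transcendental Λ (φ x) := htr _ (h.tr x hx)
  have hDx := der_ne_zero hD hxΛ
  -- the curve in `F`
  obtain ⟨e, he⟩ : ∃ e : C0 ≃ₐ[ℂ] (C0.map φ), ∀ c, ((e c : C0.map φ) : F) = φ c :=
    ⟨C0.equivMap φ, fun c => rfl⟩
  have hxe : Transcendental ℂ (e x) := by
    intro h1
    apply hx
    have h2 := h1.algHom e.symm.toAlgHom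
    change IsAlgebraic ℂ (e.symm (e x)) at h2
    rwa [AlgEquiv.symm_apply_apply] at h2
  obtain ⟨D0', hD0'⟩ : ∃ D0' : Derivation ℂ (C0.map φ) (C0.map φ), ∀ c, D0' (e c) = e (D0 c) := by
    refine ⟨Pool.Agent.TH466.QG.pushD e D0, fun c => ?_⟩
    rw [Pool.Agent.TH466.QG.pushD_apply, AlgEquiv.symm_apply_apply]
  have hD0'x : D0' (e x) = 1 := by rw [hD0', hD0, map_one]
  have hD00 : D0 ≠ 0 := by
    rintro rfl
    simp at hD0
  have hD00' : D0' ≠ 0 := by
    rintro rfl
    simp at hD0'x
  obtain ⟨T', hT'⟩ : ∃ T' : Finset (Place ℂ (C0.map φ)), T' = T.image (pullPl e.symm) := ⟨_, rfl⟩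
  have hpull : ∀ (P : Place ℂ C0) (z : C0), (pullPl e.symm P).ord (e z) = P.ord z := by
    intro P z
    change P.ord (e.symm (e z)) = _
    rw [AlgEquiv.symm_apply_apply]
  have hT'mem : ∀ P : Place ℂ C0, pullPl e.symm P ∈ T' ↔ P ∈ T := by
    intro P
    rw [hT', Finset.mem_image]
    constructor
    · rintro ⟨P', hP', h1⟩
      have h2 : P' = P := place_ext fun z => by
        rw [← hpull P' z, ← hpull P z, h1]
      rwa [h2] at hP'
    · exact fun hP => ⟨P, hP, rfl⟩
  -- the derivation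
  let D1 : Derivation ℂ F F := ((D (φ x))⁻¹ • D).restrictScalars ℂ
  have hD1 : ∀ z, D1 z = (D (φ x))⁻¹ * D z := fun z => rfl
  obtain ⟨pl, hpl⟩ : ∃ pl : Place (IsScalarTower.toAlgHom ℂ Λ F).fieldRange F → Place Λ F,
      ∀ w z, (pl w).ord z = w.ord z :=
    ⟨fun w =>
        { ord := w.ord
          ord_zero := w.ord_zero
          ord_mul := w.ord_mul
          ord_add := w.ord_add
          ord_const := fun {c} hc => by
            have h1 : algebraMap Λ F c = algebraMap (IsScalarTower.toAlgHom ℂ Λ F).fieldRange F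
              ⟨algebraMap Λ F c, ⟨c, rfl⟩⟩ := rfl
            rw [h1]
            refine w.ord_const fun h2 => hc ?_
            have h3 : algebraMap Λ F c = 0 := congrArg Subtype.val h2
            exact (map_eq_zero _).1 h3
          surj := w.surj }, fun w z => rfl⟩
  have hstep : ∀ (w : Place (IsScalarTower.toAlgHom ℂ Λ F).fieldRange F) (π : F),
      w.ord π = 1 → w.ord (D1 π) = vo (pl w) D - w.ord (D (φ x)) ∧
        w.ord (f * (D (φ x))⁻¹) = (pl w).ord f - w.ord (D (φ x)) := by
    intro w π hπ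
    have hπ' : (pl w).ord π = 1 := by rw [hpl]; exact hπ
    have h2 := vo_eq (pl w) hπ' hD
    have h3 := (ord_der (pl w) hD (f := π) (by omega)).1
    rw [hpl] at h2
    rw [hD1, w.ord_mul (inv_ne_zero hDx) h3, w.ord_mul hf0 (inv_ne_zero hDx), w.ord_inv, hpl, ← h2]
    constructor <;> ring
  obtain ⟨S, β, hS, hβ⟩ := cur_log_span hcur (x := e x) (D0 := D0') hD0'x hxe (D := D1)
    (by
      rintro _ ⟨a, rfl⟩
      change D1 (algebraMap Λ F a) = 0
      rw [hD1, D.map_algebraMap, mul_zero]) (by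
      rw [he, hD1, inv_mul_cancel₀ hDx]) T' (z := f * (D (φ x))⁻¹) (by
      intro w π hπ
      obtain ⟨h1, h2⟩ := hstep w π hπ
      have h3 := hf (pl w)
      omega) (by
      intro w π hπ hw
      obtain ⟨h1, h2⟩ := hstep w π hπ
      have h3 := hf' (pl w) (fun q e' he' hq hqT => by
        refine hw (pullPl e.symm q) e' he' (fun β => ?_) ((hT'mem q).2 hqT)
        obtain ⟨c, rfl⟩ := e.surjective β
        rw [hpull, ← hq, hpl, he])
      omega)
  have h1 : f = ∑ i ∈ S, ((Module.Basis.ofVectorSpace ℂ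
      (IsScalarTower.toAlgHom ℂ Λ F).fieldRange i : _) : F) * ((β i : F) * D (φ x)) := by
    have h2 : f = (f * (D (φ x))⁻¹) * D (φ x) := by
      field_simp
    rw [h2, hS, Finset.sum_mul]
    refine Finset.sum_congr rfl fun i _ => ?_
    ring
  rw [h1]
  refine V.sum_mem fun i hi => ?_
  obtain ⟨a, ha⟩ := (Module.Basis.ofVectorSpace ℂ (IsScalarTower.toAlgHom ℂ Λ F).fieldRange i).2
  change algebraMap Λ F a = _ at ha
  rw [← ha, ← Algebra.smul_def]
  refine V.smul_mem _ ?_
  -- the coefficient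
  by_cases hβ0 : β i = 0
  · rw [hβ0]
    have h3 : ((0 : C0.map φ) : F) = 0 := rfl
    rw [h3, zero_mul]
    exact V.zero_mem
  have h2 := (hβ i hi).resolve_left hβ0
  have hvo : ∀ P : Place ℂ C0, vo (pullPl e.symm P) D0' = vo P D0 := by
    intro P
    obtain ⟨π, hπ0, hπ⟩ := P.surj
    have h4 : (pullPl e.symm P).ord (e π) = 1 := by
      rw [hpull]
      exact hπ
    rw [← vo_eq _ h4 hD00', hD0', hpull, ← vo_eq P hπ hD00]
  obtain ⟨b, hb⟩ := e.surjective (β i)
  obtain ⟨c, hc⟩ := hs b (by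
    rintro rfl
    rw [map_zero] at hb
    exact hβ0 hb.symm) (Or.inr ⟨fun P hP => by
      have h3 := h2.1 (pullPl e.symm P) (fun h => hP ((hT'mem P).1 h))
      rwa [hvo, ← hb, hpull] at h3, fun P hP => by
      have h3 := h2.2 (pullPl e.symm P) ((hT'mem P).2 hP)
      rwa [hvo, ← hb, hpull] at h3⟩)
  have h3 : ((β i : C0.map φ) : F) = ∑ a, algebraMap Λ F (algebraMap ℂ Λ (c a)) * φ (s a) := by
    have h4 : β i = e (∑ a, c a • s a) := by
      rw [← hc, hb]
    rw [h4, he]
    have h5 : φ ((∑ a, c a • s a : C0) : K) = ∑ a, φ ((c a • s a : C0) : K) := by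
      rw [← map_sum]
      congr 1
      exact map_sum C0.val _ _
    rw [h5]
    refine Finset.sum_congr rfl fun a _ => ?_
    have h6 : ((c a • s a : C0) : K) = algebraMap ℂ K (c a) * (s a : K) := by
      rw [Algebra.smul_def]
      rfl
    rw [h6, map_mul, φ.commutes, IsScalarTower.algebraMap_apply ℂ Λ F]
  rw [h3, Finset.sum_mul]
  refine V.sum_mem fun a _ => ?_
  rw [mul_assoc, ← Algebra.smul_def]
  refine V.smul_mem _ ?_
  rw [hV]
  exact Submodule.subset_span ⟨a, rfl⟩

end

end Pool.Agent.K4H25.LP
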