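import Pool.Agent.K4H25.PC.Spec
import Pool.Agent.K4H25.LP.Rr

/-!
Logarithmic differentials on an open curve of large logarithmic gonality separate generic points.
-/

set_option autoImplicit false
set_option linter.overlappingInstances false
set_option linter.unusedSectionVars false
set_option maxHeartbeats 4000000
set_option synthInstance.maxHeartbeats 400000

open Polynomial FF IsDedekindDomain IntermediateField

namespace Pool.Agent.K4H25.LP

open Pool.Agent.W603.LV Pool.Agent.K4H25.PC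

section

variable {F : Type} [Field F] [Algebra ℂ F]

/-- The differential whose value on `D` is `g` has at most simple poles on `T`, and is regular
elsewhere. -/
def LR (T : Finset (Place ℂ F)) (D : Derivation ℂ F F) (g : F) : Prop :=
  g = 0 ∨ ((∀ P : Place ℂ F, P ∉ T → vo P D ≤ P.ord g) ∧ ∀ P ∈ T, vo P D ≤ P.ord g + 1)

variable [IsFF ℂ F]

/-- The logarithmic differentials have a finite generating family. -/
theorem exists_log_fam (T : Finset (Place ℂ F)) {D : Derivation ℂ F F} (hD : D ≠ 0) :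
    ∃ (m : ℕ) (g : Fin m → F), (∀ a, LR T D (g a)) ∧
      ∀ f : F, f ≠ 0 → LR T D f → ∃ c : Fin m → ℂ, f = ∑ a, c a • g a := by
  classical
  obtain ⟨E, hE⟩ : ∃ E : Place ℂ F →₀ ℤ, ∀ P, E P = - vo P D + if P ∈ T then 1 else 0 := by
    refine ⟨Finsupp.ofSupportFinite (fun P => - vo P D + if P ∈ T then 1 else 0) ?_, fun P => rfl⟩
    refine ((vo_finite hD).union T.finite_toSet).subset fun P hP => ?_
    have h1 : - vo P D + (if P ∈ T then 1 else 0) ≠ 0 := hP
    by_cases hPT : P ∈ T
    · exact Or.inr hPT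
    · left
      rw [if_neg hPT] at h1
      show vo P D ≠ 0
      omega
  have hiff : ∀ f : F, f ∈ LL E ↔ LR T D f := by
    intro f
    rw [mem_LL]
    constructor
    · rintro (h | h)
      · exact Or.inl h
      · refine Or.inr ⟨fun P hP => ?_, fun P hP => ?_⟩
        · have h1 := h P
          rw [hE, if_neg hP] at h1
          omega
        · have h1 := h P
          rw [hE, if_pos hP] at h1
          omega
    · rintro (h | h)
      · exact Or.inl h
      · refine Or.inr fun P => ?_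
        rw [hE]
        by_cases hP : P ∈ T
        · rw [if_pos hP]
          have := h.2 P hP
          omega
        · rw [if_neg hP]
          have := h.1 P hP
          omega
  have h1 : (LL E).FG := (Submodule.fg_iff_finiteDimensional _).2 (finDim_LL E)
  obtain ⟨m, g, hg⟩ := Submodule.fg_iff_exists_fin_generating_family.1 h1
  refine ⟨m, g, fun a => ?_, fun f hf0 hf => ?_⟩
  · rw [← hiff, ← hg]
    exact Submodule.subset_span ⟨a, rfl⟩
  · have h2 : f ∈ Submodule.span ℂ (Set.range g) := by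
      rw [hg, hiff]
      exact hf
    obtain ⟨c, hc⟩ := (Submodule.mem_span_range_iff_exists_fun ℂ).1 h2
    exact ⟨c, hc.symm⟩

/-- **Separation of generic points.** -/
theorem sepFam_log {M : ℕ} (T : Finset (Place ℂ F))
    (hgon : ∀ b : F, Transcendental ℂ b → (∀ P ∈ T, 0 < P.ord b) →
      M + 1 < Module.finrank ℂ⟮b⟯ F)
    {D : Derivation ℂ F F} (hD : D ≠ 0) {m : ℕ} {g : Fin m → F}
    (hg : ∀ f : F, f ≠ 0 → LR T D f → ∃ c : Fin m → ℂ, f = ∑ a, c a • g a) :
    SepFam M Set.univ g := by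
  classical
  intro Ω ι iΩ iι S c φ s0 hφ hs0 hS hX hrel
  by_contra hc0
  let _ : Algebra ℂ Ω := ((φ s0).comp (algebraMap ℂ F)).toAlgebra
  have hφc : ∀ s (z : ℂ), φ s (algebraMap ℂ F z) = algebraMap ℂ Ω z := fun s z => hφ s s0 z
  -- separating functions
  have hX' : ∀ s, ∃ z : F, s ∈ S → φ s z ≠ φ s0 z := by
    intro s
    by_cases hs : s ∈ S
    · obtain ⟨z, -, hz⟩ := hX s hs
      exact ⟨z, fun _ => hz⟩
    · exact ⟨0, fun h => absurd h hs⟩
  choose z hz using hX'
  -- functions with poles at the bad places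
  have hbad : ({P : Place ℂ F | vo P D ≠ 0} ∪ (T : Set (Place ℂ F))).Finite :=
    (vo_finite hD).union T.finite_toSet
  have hpole : ∀ Q : Place ℂ F, ∃ a : F, Q.ord a < 0 := by
    intro Q
    obtain ⟨t, ht0, ht⟩ := Q.surj
    exact ⟨t⁻¹, by rw [Q.ord_inv]; omega⟩
  choose pl hpl using hpole
  obtain ⟨t0, ht0⟩ := IsFF.exists_transcendental (k := ℂ) (K := F)
  -- the coordinate ring
  obtain ⟨G, hG⟩ : ∃ G : Finset F, G = insert t0 (Finset.univ.image g ∪ S.image z ∪
    hbad.toFinset.image pl) := ⟨_, rfl⟩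
  obtain ⟨A, hA⟩ : ∃ A : Subalgebra ℂ F, A = Algebra.adjoin ℂ (G : Set F) := ⟨_, rfl⟩
  have hGA : ∀ a ∈ G, a ∈ A := fun a ha => by
    rw [hA]
    exact Algebra.subset_adjoin (Finset.mem_coe.2 ha)
  -- the ring of the relation
  obtain ⟨H, hH⟩ : ∃ H : Finset Ω, H = insert (c s0)⁻¹ ((insert s0 S).image c ∪
    (insert s0 S).biUnion (fun s => G.image (φ s)) ∪
    S.image (fun s => (φ s (z s) - φ s0 (z s))⁻¹)) := ⟨_, rfl⟩
  obtain ⟨R, hR⟩ : ∃ R : Subalgebra ℂ Ω, R = Algebra.adjoin ℂ (H : Set Ω) := ⟨_, rfl⟩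
  have hHR : ∀ a ∈ H, a ∈ R := fun a ha => by
    rw [hR]
    exact Algebra.subset_adjoin (Finset.mem_coe.2 ha)
  have hfg : Algebra.FiniteType ℂ R := by
    rw [← Subalgebra.fg_iff_finiteType, hR]
    exact ⟨H, rfl⟩
  obtain ⟨π⟩ := Pool.Agent.R885.exists_point ℂ R
  have hφA : ∀ s ∈ insert s0 S, ∀ a ∈ A, φ s a ∈ R := by
    intro s hs a ha
    rw [hA] at ha
    induction ha using Algebra.adjoin_induction with
    | mem y hy =>
      apply hHR
      rw [hH]
      refine Finset.mem_insert_of_mem (Finset.mem_union_left _ (Finset.mem_union_right _ ?_))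
      exact Finset.mem_biUnion.2 ⟨s, hs, Finset.mem_image_of_mem _ (Finset.mem_coe.1 hy)⟩
    | algebraMap r => rw [hφc]; exact R.algebraMap_mem r
    | add y w _ _ hy hw => rw [map_add]; exact add_mem hy hw
    | mul y w _ _ hy hw => rw [map_mul]; exact mul_mem hy hw
  have hcR : ∀ s ∈ insert s0 S, c s ∈ R := by
    intro s hs
    apply hHR
    rw [hH]
    exact Finset.mem_insert_of_mem (Finset.mem_union_left _ (Finset.mem_union_left _
      (Finset.mem_image_of_mem _ hs)))
  -- the points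
  have hplace : ∀ s (hs : s ∈ insert s0 S), ∃ P : Place ℂ F, ∀ a (ha : a ∈ A),
      Ge P 1 (a - algebraMap ℂ F (π ⟨φ s a, hφA s hs a ha⟩)) := by
    intro s hs
    let ψ : A →+* ℂ :=
      { toFun := fun a => π ⟨φ s a, hφA s hs a a.2⟩
        map_one' := by
          rw [← map_one π]
          exact congrArg π (Subtype.ext (map_one (φ s)))
        map_mul' := fun a b => by
          rw [← map_mul π]
          exact congrArg π (Subtype.ext (map_mul (φ s) _ _))
        map_zero' := by
          rw [← map_zero π]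
          exact congrArg π (Subtype.ext (map_zero (φ s)))
        map_add' := fun a b => by
          rw [← map_add π]
          exact congrArg π (Subtype.ext (map_add (φ s) _ _)) }
    have hψc : ∀ w : ℂ, ψ (algebraMap ℂ A w) = w := by
      intro w
      have h1 : π (algebraMap ℂ R w) = w := π.commutes w
      refine Eq.trans ?_ h1
      exact congrArg π (Subtype.ext (hφc s w))
    have hker : ∀ a : A, a - algebraMap ℂ A (ψ a) ∈ RingHom.ker ψ := by
      intro a
      rw [RingHom.mem_ker, map_sub, hψc, sub_self]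
    have ht0A : t0 ∈ A := hGA _ (by rw [hG]; exact Finset.mem_insert_self _ _)
    obtain ⟨P, hP⟩ := exists_place_ideal (k := ℂ) (F := F) A.toSubring (fun w => A.algebraMap_mem w)
      (RingHom.ker ψ) (RingHom.ker_ne_top ψ)
      (x := (⟨t0, ht0A⟩ : A) - algebraMap ℂ A (ψ ⟨t0, ht0A⟩)) (hker _) (by
        intro h
        apply ht0
        have h1 := h.add (isAlgebraic_algebraMap (A := F) (ψ ⟨t0, ht0A⟩))
        have h2 : (((⟨t0, ht0A⟩ : A) - algebraMap ℂ A (ψ ⟨t0, ht0A⟩) : A) : F) +
          algebraMap ℂ F (ψ ⟨t0, ht0A⟩) = t0 := sub_add_cancel _ _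
        rw [← h2]
        exact h1)
    exact ⟨P, fun a ha => hP _ (hker ⟨a, ha⟩)⟩
  choose P hP using hplace
  have hs0' : s0 ∈ insert s0 S := Finset.mem_insert_self _ _
  -- the places are good
  have hregA : ∀ s (hs : s ∈ insert s0 S), ∀ a ∈ A, Ge (P s hs) 0 a := by
    intro s hs a ha
    have h1 := (hP s hs a ha).mono (by omega : (0 : ℤ) ≤ 1)
    have h2 := h1.add (Ge.const (P := P s hs) (π ⟨φ s a, hφA s hs a ha⟩))
    rwa [sub_add_cancel] at h2
  have hgood' : ∀ s (hs : s ∈ insert s0 S),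
      P s hs ∉ ({P : Place ℂ F | vo P D ≠ 0} ∪ (T : Set (Place ℂ F))) := by
    intro s hs hne
    have h1 : P s hs ∈ hbad.toFinset := hbad.mem_toFinset.2 hne
    have h2 : pl (P s hs) ∈ A := hGA _ (by
      rw [hG]
      exact Finset.mem_insert_of_mem (Finset.mem_union_right _ (Finset.mem_image_of_mem _ h1)))
    have h3 := hregA s hs _ h2
    have h4 := hpl (P s hs)
    rcases h3 with h3 | h3
    · rw [h3, (P s hs).ord_zero] at h4
      omega
    · omega
  have hgood : ∀ s (hs : s ∈ insert s0 S), vo (P s hs) D = 0 := by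
    intro s hs
    by_contra hne
    exact hgood' s hs (Or.inl hne)
  have hgoodT : ∀ s (hs : s ∈ insert s0 S), P s hs ∉ T := fun s hs h =>
    hgood' s hs (Or.inr h)
  -- the places are different
  have hdiff : ∀ s (hs : s ∈ S), P s (Finset.mem_insert_of_mem hs) ≠ P s0 hs0' := by
    intro s hs he
    have hzA : z s ∈ A := hGA _ (by
      rw [hG]
      exact Finset.mem_insert_of_mem (Finset.mem_union_left _ (Finset.mem_union_right _
        (Finset.mem_image_of_mem _ hs))))
    have h1 := hP s (Finset.mem_insert_of_mem hs) _ hzA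
    have h2 := hP s0 hs0' _ hzA
    rw [he] at h1
    have h3 := h2.sub h1
    rw [sub_sub_sub_cancel_left, ← map_sub, ← map_sub] at h3
    have h4 := const_zero _ h3
    have h5 : (φ s (z s) - φ s0 (z s))⁻¹ ∈ R := hHR _ (by
      rw [hH]
      exact Finset.mem_insert_of_mem (Finset.mem_union_right _ (Finset.mem_image_of_mem
        (fun s => (φ s (z s) - φ s0 (z s))⁻¹) hs)))
    have h6 : ((⟨φ s (z s), hφA s (Finset.mem_insert_of_mem hs) _ hzA⟩ : R) -
        ⟨φ s0 (z s), hφA s0 hs0' _ hzA⟩) * ⟨_, h5⟩ = 1 := by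
      apply Subtype.ext
      exact mul_inv_cancel₀ (sub_ne_zero.2 (hz s hs))
    have h7 := congrArg π h6
    rw [map_mul, map_one, h4, zero_mul] at h7
    exact zero_ne_one h7
  -- the differential
  obtain ⟨S', hS'1, hS'2, hS'3, hS'4⟩ : ∃ S' : Finset (Place ℂ F), S'.card ≤ M ∧
      (∀ s (hs : s ∈ S), P s (Finset.mem_insert_of_mem hs) ∈ S') ∧ P s0 hs0' ∉ S' ∧
      ∀ P ∈ S', P ∉ T := by
    refine ⟨S.attach.image fun s : {s // s ∈ S} => P s.1 (Finset.mem_insert_of_mem s.2),
      Finset.card_image_le.trans (by rw [Finset.card_attach]; exact hS), fun s hs =>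
        Finset.mem_image.2 ⟨⟨s, hs⟩, Finset.mem_attach _ _, rfl⟩, fun h => ?_, fun Q h => ?_⟩
    · obtain ⟨s, -, hs⟩ := Finset.mem_image.1 h
      exact hdiff s.1 s.2 hs
    · obtain ⟨s, -, hs⟩ := Finset.mem_image.1 h
      rw [← hs]
      exact hgoodT _ _
  obtain ⟨f, hf0, hfreg, hfregT, hfS, hf1⟩ := exists_sep_log hD (P s0 hs0') S' T hS'3
    (hgoodT _ _) hS'4 (fun b hb hbT => by
      have h2 := hgon b hb hbT
      omega)
  obtain ⟨lam, hlam⟩ := hg f hf0 (Or.inr ⟨hfreg, hfregT⟩)
  have hgA : ∀ a, g a ∈ A := fun a => hGA _ (by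
    rw [hG]
    exact Finset.mem_insert_of_mem (Finset.mem_union_left _ (Finset.mem_union_left _
      (Finset.mem_image_of_mem _ (Finset.mem_univ a)))))
  have hfA : f ∈ A := by
    rw [hlam]
    exact Subalgebra.sum_mem _ fun a _ => A.smul_mem (hgA a) _
  have hval : ∀ s (hs : s ∈ S), π ⟨φ s f, hφA s (Finset.mem_insert_of_mem hs) f hfA⟩ = 0 := by
    intro s hs
    have h1 := hP s (Finset.mem_insert_of_mem hs) f hfA
    have h2 : Ge (P s (Finset.mem_insert_of_mem hs)) 1 f := by
      right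
      have h3 := hfS _ (hS'2 s hs)
      have h4 := hgood s (Finset.mem_insert_of_mem hs)
      rw [h4, zero_add] at h3
      exact h3
    have h3 := h2.sub h1
    rw [sub_sub_cancel] at h3
    exact const_zero _ h3
  have hval0 : π ⟨φ s0 f, hφA s0 hs0' f hfA⟩ ≠ 0 := by
    intro h
    have h1 := hP s0 hs0' f hfA
    rw [h, map_zero, sub_zero] at h1
    have h2 := h1.resolve_left hf0
    rw [hf1, hgood] at h2
    omega
  -- the relation
  have hrelf : c s0 * φ s0 f + ∑ s ∈ S, c s * φ s f = 0 := by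
    have h1 : ∀ s, φ s f = ∑ a, algebraMap ℂ Ω (lam a) * φ s (g a) := by
      intro s
      rw [hlam, map_sum]
      refine Finset.sum_congr rfl fun a _ => ?_
      rw [Algebra.smul_def, map_mul, hφc]
    have h2 : c s0 * φ s0 f + ∑ s ∈ S, c s * φ s f =
        ∑ a, algebraMap ℂ Ω (lam a) * (c s0 * φ s0 (g a) + ∑ s ∈ S, c s * φ s (g a)) := by
      simp only [mul_add, Finset.sum_add_distrib, Finset.mul_sum, h1]
      congr 1
      · refine Finset.sum_congr rfl fun a _ => ?_
        ring
      · rw [Finset.sum_comm]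
        refine Finset.sum_congr rfl fun a _ => Finset.sum_congr rfl fun s _ => ?_
        ring
    rw [h2]
    refine Finset.sum_eq_zero fun a _ => ?_
    rw [hrel a, mul_zero]
  have hrelR : (⟨c s0, hcR s0 hs0'⟩ : R) * ⟨φ s0 f, hφA s0 hs0' f hfA⟩ +
      ∑ s ∈ S.attach, (⟨c s.1, hcR s.1 (Finset.mem_insert_of_mem s.2)⟩ : R) *
        ⟨φ s.1 f, hφA s.1 (Finset.mem_insert_of_mem s.2) f hfA⟩ = 0 := by
    apply Subtype.ext
    rw [Subalgebra.coe_add, AddSubmonoidClass.coe_finset_sum]
    change c s0 * φ s0 f + ∑ s ∈ S.attach, c s.1 * φ s.1 f = 0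
    rw [Finset.sum_attach S (fun s => c s * φ s f)]
    exact hrelf
  have h1 := congrArg π hrelR
  rw [map_add, map_sum, map_mul, map_zero, Finset.sum_eq_zero, add_zero] at h1
  · rcases mul_eq_zero.1 h1 with h2 | h2
    · have h5 : (c s0)⁻¹ ∈ R := hHR _ (by rw [hH]; exact Finset.mem_insert_self _ _)
      have h6 : (⟨c s0, hcR s0 hs0'⟩ : R) * ⟨_, h5⟩ = 1 := by
        apply Subtype.ext
        exact mul_inv_cancel₀ hc0
      have h7 := congrArg π h6
      rw [map_mul, map_one, h2, zero_mul] at h7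
      exact zero_ne_one h7
    · exact hval0 h2
  · intro s _
    rw [map_mul, hval s.1 s.2, mul_zero]

end

end Pool.Agent.K4H25.LP
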